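import Mathlib

set_option autoImplicit false

/-!
Counting visits of a rational rotation, with perturbation.
-/

namespace Pool.Agent.W5h23

open Finset

/-- one block of a rational rotation -/
theorem ratrot_block (q : ℕ) (h : ℤ) (hcop : IsCoprime h (q : ℤ)) (A B : ℝ)
    (hAB : A ≤ B) (F : Finset ℕ)
    (hF : ∀ i ∈ F, i < q ∧ ∃ n : ℤ, A ≤ (i : ℝ) * h - n * q ∧ (i : ℝ) * h - n * q ≤ B) :
    (F.card : ℝ) ≤ B - A + 1 := by
  classical
  have hF2 : ∀ i ∈ F, ∃ n : ℤ, A ≤ (i : ℝ) * h - n * q ∧ (i : ℝ) * h - n * q ≤ B :=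
    fun i hi => (hF i hi).2
  choose! o ho using hF2
  set f : ℕ → ℤ := fun i => (i : ℤ) * h - o i * q with hf
  have hmem : ∀ i ∈ F, f i ∈ Finset.Icc ⌈A⌉ ⌊B⌋ := by
    intro i hi
    have h1 := ho i hi
    have e : ((f i : ℤ) : ℝ) = (i : ℝ) * h - o i * q := by rw [hf]; push_cast; ring
    rw [Finset.mem_Icc, Int.ceil_le, Int.le_floor, e]
    exact h1
  have hinj : Set.InjOn f F := by
    intro i hi j hj hij
    have hi' := (hF i hi).1
    have hj' := (hF j hj).1
    have h1 : (q : ℤ) ∣ ((i : ℤ) - j) * h := by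
      refine ⟨o i - o j, ?_⟩
      have : (i : ℤ) * h - o i * q = (j : ℤ) * h - o j * q := hij
      linear_combination this
    have h2 : (q : ℤ) ∣ (i : ℤ) - j := hcop.symm.dvd_of_dvd_mul_right h1
    have h3 : ((i : ℤ) - j) = 0 := by
      apply Int.eq_zero_of_abs_lt_dvd h2
      rw [abs_lt]
      constructor <;> omega
    omega
  have h1 : F.card ≤ (Finset.Icc ⌈A⌉ ⌊B⌋).card :=
    Finset.card_le_card_of_injOn f hmem hinj
  rw [Int.card_Icc] at h1
  have h2 : ((⌊B⌋ + 1 - ⌈A⌉).toNat : ℝ) ≤ max (((⌊B⌋ + 1 - ⌈A⌉ : ℤ)) : ℝ) 0 := by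
    rcases le_total 0 (⌊B⌋ + 1 - ⌈A⌉) with h | h
    · have : (((⌊B⌋ + 1 - ⌈A⌉).toNat : ℤ)) = ⌊B⌋ + 1 - ⌈A⌉ := Int.toNat_of_nonneg h
      refine le_trans (le_of_eq ?_) (le_max_left _ _)
      exact_mod_cast this
    · rw [Int.toNat_of_nonpos h]; simp
  have h3 : (F.card : ℝ) ≤ ((⌊B⌋ + 1 - ⌈A⌉).toNat : ℝ) := by exact_mod_cast h1
  refine (h3.trans h2).trans (max_le ?_ (by linarith))
  push_cast
  have h4 := Int.floor_le B
  have h5 := Int.le_ceil A
  linarith

/-- `g` blocks of a rational rotation -/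
theorem ratrot (g q : ℕ) (h : ℤ) (hq : 0 < q) (hcop : IsCoprime h (q : ℤ)) (A B : ℝ)
    (hAB : A ≤ B) (F : Finset ℕ)
    (hF : ∀ i ∈ F, i < g * q ∧ ∃ n : ℤ, A ≤ (i : ℝ) * h - n * q ∧ (i : ℝ) * h - n * q ≤ B) :
    (F.card : ℝ) ≤ g * (B - A + 1) := by
  classical
  have hmaps : ∀ i ∈ F, i / q ∈ range g := by
    intro i hi
    rw [mem_range]
    exact Nat.div_lt_of_lt_mul (by rw [mul_comm]; exact (hF i hi).1)
  have h1 := card_eq_sum_card_fiberwise hmaps
  have h2 : ∀ b ∈ range g, ((F.filter fun i => i / q = b).card : ℝ) ≤ B - A + 1 := by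
    intro b _
    have hinj : Set.InjOn (fun i => i % q) ((F.filter fun i => i / q = b) : Finset ℕ) := by
      intro i hi j hj hij
      simp only [coe_filter, Set.mem_ofPred_eq] at hi hj
      have e1 := Nat.div_add_mod i q
      have e2 := Nat.div_add_mod j q
      have e3 : i % q = j % q := hij
      rw [hi.2] at e1
      rw [hj.2] at e2
      omega
    rw [← card_image_of_injOn hinj]
    apply ratrot_block q h hcop A B hAB
    intro i hi
    rw [mem_image] at hi
    obtain ⟨j, hj, rfl⟩ := hi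
    rw [mem_filter] at hj
    refine ⟨Nat.mod_lt _ hq, ?_⟩
    obtain ⟨n, hn⟩ := (hF j hj.1).2
    refine ⟨n - b * h, ?_⟩
    have e1 := Nat.div_add_mod j q
    rw [hj.2] at e1
    have e2 : (j : ℝ) = q * b + ((j % q : ℕ) : ℝ) := by exact_mod_cast e1.symm
    have e : ((j % q : ℕ) : ℝ) * h - ((n - b * h : ℤ) : ℝ) * q = (j : ℝ) * h - n * q := by
      rw [e2]; push_cast; ring
    rw [e]
    exact hn
  have h3 : (F.card : ℝ) ≤ ∑ b ∈ range g, (B - A + 1) := by
    rw [h1]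
    push_cast
    exact sum_le_sum h2
  rw [sum_const, card_range, nsmul_eq_mul] at h3
  exact h3

/-- upper bound for the number of visits of a perturbed rational rotation to an interval mod 1 -/
theorem count_upper {β : Type*} [DecidableEq β] (S : Finset β) (ι : β → ℕ)
    (hι : Set.InjOn ι S) (P : ℕ) (hP : 0 < P) (hιP : ∀ s ∈ S, ι s < P) (H : ℤ) (θ ε : ℝ)
    (hε : 0 ≤ ε) (f : β → ℝ)
    (hf : ∀ s ∈ S, ∃ n : ℤ, |f s - θ - ι s * ((H : ℝ) / P) - n| ≤ ε) (a b : ℝ) (hab : a ≤ b)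
    (S' : Finset β) (hS' : S' ⊆ S) (hS2 : ∀ s ∈ S', ∃ n : ℤ, a ≤ f s - n ∧ f s - n ≤ b) :
    (S'.card : ℝ) ≤ (b - a + 2 * ε) * P + (Int.gcd H P : ℝ) := by
  classical
  obtain ⟨g, hg⟩ : ∃ g, g = Int.gcd H P := ⟨_, rfl⟩
  have hg0 : 0 < g := by
    rw [hg]; exact Int.gcd_pos_of_ne_zero_right _ (by exact_mod_cast hP.ne')
  have hPr : (0 : ℝ) < P := by exact_mod_cast hP
  have hgr : (0 : ℝ) < g := by exact_mod_cast hg0
  obtain ⟨h, hh⟩ : ∃ h : ℤ, H = g * h := by
    have := Int.gcd_dvd_left H (P : ℤ)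
    rw [← hg] at this
    exact this
  obtain ⟨q, hq⟩ : ∃ q : ℕ, P = g * q := by
    have := Int.gcd_dvd_right H (P : ℤ)
    rw [← hg] at this
    exact_mod_cast this
  have hq0 : 0 < q := by
    rcases Nat.eq_zero_or_pos q with h0 | h0
    · rw [h0, mul_zero] at hq; omega
    · exact h0
  have hqr : (0 : ℝ) < q := by exact_mod_cast hq0
  have hcop : IsCoprime h (q : ℤ) := by
    rw [Int.isCoprime_iff_gcd_eq_one]
    have h1 : Int.gcd H (P : ℤ) = g * Int.gcd h (q : ℤ) := by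
      rw [hh, hq]; push_cast
      rw [Int.gcd_mul_left]
      simp
    rw [← hg] at h1
    have : g * 1 = g * Int.gcd h (q : ℤ) := by rw [mul_one]; exact h1
    exact (Nat.eq_of_mul_eq_mul_left hg0 this).symm
  have hPq : (P : ℝ) = g * q := by exact_mod_cast hq
  have hinj : Set.InjOn ι S' := fun x hx y hy hxy => hι (hS' hx) (hS' hy) hxy
  rw [← card_image_of_injOn hinj]
  have key := ratrot g q h hq0 hcop ((a - ε - θ) * q) ((b + ε - θ) * q)
    (mul_le_mul_of_nonneg_right (by linarith) hqr.le) (S'.image ι) (by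
      intro i hi
      rw [mem_image] at hi
      obtain ⟨s, hs, rfl⟩ := hi
      refine ⟨by rw [← hq]; exact hιP s (hS' hs), ?_⟩
      obtain ⟨n, hn1, hn2⟩ := hS2 s hs
      obtain ⟨m, hm⟩ := hf s (hS' hs)
      refine ⟨n - m, ?_⟩
      have e1 : (H : ℝ) / P = h / q := by
        rw [hPq, hh]; push_cast; field_simp
      rw [e1] at hm
      have e2 : (ι s : ℝ) * h - ((n - m : ℤ) : ℝ) * q = (ι s * ((h : ℝ) / q) + m - n) * q := by
        push_cast; field_simp; ring
      rw [e2]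
      rw [abs_le] at hm
      constructor
      · apply mul_le_mul_of_nonneg_right _ hqr.le
        linarith [hm.1, hm.2]
      · apply mul_le_mul_of_nonneg_right _ hqr.le
        linarith [hm.1, hm.2])
  refine key.trans (le_of_eq ?_)
  rw [← hg, hPq]
  ring

/-- **discrepancy** of a perturbed rational rotation -/
theorem count_disc {β : Type*} [DecidableEq β] (S : Finset β) (ι : β → ℕ)
    (hι : Set.InjOn ι S) (P : ℕ) (hP : 0 < P) (hιP : ∀ s ∈ S, ι s < P) (hcard : S.card = P)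
    (H : ℤ) (θ ε : ℝ) (hε : 0 ≤ ε) (f : β → ℝ)
    (hf : ∀ s ∈ S, ∃ n : ℤ, |f s - θ - ι s * ((H : ℝ) / P) - n| ≤ ε) (a b : ℝ) (ha : 0 ≤ a)
    (hab : a ≤ b) (hb : b ≤ 1) :
    |((S.filter fun s => a ≤ Int.fract (f s) ∧ Int.fract (f s) < b).card : ℝ) - (b - a) * P| ≤
      2 * ε * P + (Int.gcd H P : ℝ) := by
  classical
  set F := S.filter fun s => a ≤ Int.fract (f s) ∧ Int.fract (f s) < b with hF
  set G := S.filter fun s => ¬ (a ≤ Int.fract (f s) ∧ Int.fract (f s) < b) with hG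
  have hFG : F.card + G.card = S.card := by
    rw [hF, hG]
    exact Finset.card_filter_add_card_filter_not _
  have h1 := count_upper S ι hι P hP hιP H θ ε hε f hf a b hab F (filter_subset _ _) (by
    intro s hs
    rw [hF, mem_filter] at hs
    refine ⟨⌊f s⌋, ?_⟩
    have e : f s - ⌊f s⌋ = Int.fract (f s) := rfl
    rw [e]
    exact ⟨hs.2.1, hs.2.2.le⟩)
  have h2 := count_upper S ι hι P hP hιP H θ ε hε f hf b (a + 1) (by linarith) G
    (filter_subset _ _) (by
    intro s hs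
    rw [hG, mem_filter, not_and_or] at hs
    have e : f s - ⌊f s⌋ = Int.fract (f s) := rfl
    have h3 := Int.fract_nonneg (f s)
    have h4 := Int.fract_lt_one (f s)
    rcases hs.2 with h | h
    · refine ⟨⌊f s⌋ - 1, ?_⟩
      push_cast
      rw [not_le] at h
      constructor <;> linarith
    · refine ⟨⌊f s⌋, ?_⟩
      rw [not_lt] at h
      constructor <;> linarith)
  have h5 : (F.card : ℝ) + G.card = P := by rw [← hcard]; exact_mod_cast hFG
  rw [abs_le]
  constructor <;> nlinarith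

end Pool.Agent.W5h23
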