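import Mathlib
import Pool.Agent.H547R3.Cyc

set_option autoImplicit false

/-!
Cycles of the 3x+1 map many of whose elements are polynomially bounded have positive entropy.
-/

namespace Pool.Agent.W5h23

open Finset Pool.Agent.H319R2 Pool.Agent.H547R3

/-- the parity word of length `n` -/
def word (n : ℕ) (x : ℤ) : Fin n → ℤ := fun j => T^[(j : ℕ)] x % 2

theorem finite_small (M : ℝ) : {Z : Finset ℤ | IsCycle Z ∧ ∃ x ∈ Z, |(x : ℝ)| ≤ M}.Finite := by
  set L : ℤ := ⌊M⌋ with hL
  have h1 : {Z : Finset ℤ | IsCycle Z ∧ ∃ x ∈ Z, |(x : ℝ)| ≤ M} ⊆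
      ⋃ x ∈ (Finset.Icc (-L) L : Finset ℤ), {Z : Finset ℤ | IsCycle Z ∧ x ∈ Z} := by
    rintro Z ⟨hZ, x, hx, hxM⟩
    simp only [Set.mem_iUnion, Set.mem_ofPred_eq]
    refine ⟨x, ?_, hZ, hx⟩
    rw [Finset.mem_Icc, ← abs_le, hL, Int.le_floor]
    push_cast
    exact hxM
  refine Set.Finite.subset ?_ h1
  apply Set.Finite.biUnion (Finset.finite_toSet _)
  intro x _
  apply Set.Subsingleton.finite
  rintro Z ⟨hZ, hx⟩ Z' ⟨hZ', hx'⟩
  exact hZ.eq_of_mem hZ' hx hx'

/-- an element of least absolute value and the period -/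
theorem IsCycle.period_card {Z : Finset ℤ} (hZ : IsCycle Z) {x : ℤ} (hx : x ∈ Z) :
    T^[Z.card] x = x := by
  obtain ⟨z, hz, hpos, hset, hcard, -, -⟩ := hZ.normal
  obtain ⟨j, hj⟩ := hZ.back hz hx
  rw [hcard, ← hj, ← Function.iterate_add_apply, Nat.add_comm, Function.iterate_add_apply,
    Function.iterate_minimalPeriod]

theorem min_bound_cycle : ∃ D : ℝ, 1 ≤ D ∧ ∀ Z : Finset ℤ, IsCycle Z → ∃ x ∈ Z,
    (∀ y ∈ Z, |x| ≤ |y|) ∧ |(x : ℝ)| ≤ D * (Z.card : ℝ) ^ 14 := by
  obtain ⟨D, hD1, hD⟩ := min_bound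
  refine ⟨D, hD1, ?_⟩
  intro Z hZ
  obtain ⟨x1, hx1, -⟩ := hZ.normal
  obtain ⟨x0, hx0, hmin⟩ := exists_min_image Z (fun x => |x|) ⟨x1, hx1⟩
  refine ⟨x0, hx0, hmin, ?_⟩
  by_cases h0 : x0 = 0
  · rw [h0]; simp; positivity
  · exact hD x0 Z.card hZ.card_pos h0 (IsCycle.period_card hZ hx0) (fun j => hmin _ (hZ.closed hx0 j))

theorem finite_card (P : ℝ) : {Z : Finset ℤ | IsCycle Z ∧ (Z.card : ℝ) ≤ P}.Finite := by
  obtain ⟨D, hD1, hD⟩ := min_bound_cycle
  refine (finite_small (D * P ^ 14)).subset ?_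
  rintro Z ⟨hZ, hP⟩
  obtain ⟨x, hx, -, hxD⟩ := hD Z hZ
  refine ⟨hZ, x, hx, hxD.trans ?_⟩
  apply mul_le_mul_of_nonneg_left _ (by linarith)
  exact pow_le_pow_left₀ (by positivity) hP 14

theorem IsCycle.injOn {Z : Finset ℤ} (hZ : IsCycle Z) : Set.InjOn T Z := by
  intro x hx y hy h
  exact (Function.bijOn_periodicPts T).injOn (hZ.periodic hx) (hZ.periodic hy) h

theorem IsCycle.sum_T {Z : Finset ℤ} (hZ : IsCycle Z) {M : Type*} [AddCommMonoid M] (g : ℤ → M) :
    ∑ x ∈ Z, g (T x) = ∑ x ∈ Z, g x := by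
  classical
  have h1 : Z.image T = Z := by
    apply Finset.eq_of_subset_of_card_le
    · intro y hy
      rw [mem_image] at hy
      obtain ⟨x, hx, rfl⟩ := hy
      exact hZ.closed hx 1
    · rw [card_image_of_injOn (IsCycle.injOn hZ)]
  conv_rhs => rw [← h1]
  rw [sum_image (fun x hx y hy h => IsCycle.injOn hZ hx hy h)]

theorem IsCycle.sum_iter {Z : Finset ℤ} (hZ : IsCycle Z) {M : Type*} [AddCommMonoid M] (g : ℤ → M)
    (j : ℕ) : ∑ x ∈ Z, g (T^[j] x) = ∑ x ∈ Z, g x := by
  induction j with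
  | zero => simp
  | succ j ih =>
    rw [← ih]
    exact IsCycle.sum_T hZ (fun x => g (T^[j] x))

theorem IsCycle.card_iter {Z : Finset ℤ} (hZ : IsCycle Z) (Q : ℤ → Prop) [DecidablePred Q] (j : ℕ) :
    (Z.filter fun x => Q (T^[j] x)).card = (Z.filter Q).card := by
  rw [card_filter, card_filter]
  exact IsCycle.sum_iter hZ (fun x => if Q x then 1 else 0) j

/-- integers whose next parities are mostly in a small set of blocks -/
theorem count_words {n K : ℕ} (Y : Finset ℤ) (W : Finset (Fin n → ℤ)) (J s w : ℝ)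
    (hinj : ∀ x ∈ Y, ∀ y ∈ Y, (∀ t < K * n, T^[t] x % 2 = T^[t] y % 2) → x = y)
    (hbad : ∀ x ∈ Y, (((range K).filter fun i => word n (T^[i * n] x) ∉ W).card : ℝ) ≤ J)
    (hs0 : 0 < s) (hs1 : s ≤ 1) (hw : (W.card : ℝ) ≤ w) (hw1 : 1 ≤ w) :
    (Y.card : ℝ) ≤ (2 ^ n / s) ^ J * (1 + s) ^ K * w ^ K := by
  classical
  set A : Finset (Fin n → ℤ) := Fintype.piFinset (fun _ : Fin n => ({0, 1} : Finset ℤ)) with hA
  have hAcard : A.card = 2 ^ n := by
    rw [hA, Fintype.card_piFinset]
    simp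
  have hwordA : ∀ x, word n x ∈ A := by
    intro x
    rw [hA, Fintype.mem_piFinset]
    intro j
    rw [mem_insert, mem_singleton]
    unfold word
    omega
  set code : ℤ → (Σ _ : Finset (Fin K), (Fin K → Fin n → ℤ)) := fun x =>
    ⟨univ.filter fun i : Fin K => word n (T^[(i : ℕ) * n] x) ∉ W, fun i => word n (T^[(i : ℕ) * n] x)⟩
    with hcode
  set tgt : Finset (Σ _ : Finset (Fin K), (Fin K → Fin n → ℤ)) :=
    (univ.filter fun B : Finset (Fin K) => (B.card : ℝ) ≤ J).sigma
      (fun B => Fintype.piFinset (fun i => if i ∈ B then A else W)) with htgt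
  have hcodeinj : Set.InjOn code Y := by
    intro x hx y hy hxy
    rw [hcode] at hxy
    simp only [Sigma.mk.injEq] at hxy
    have h2 := eq_of_heq hxy.2
    apply hinj x hx y hy
    intro t ht
    rcases Nat.eq_zero_or_pos n with hn | hn
    · rw [hn, mul_zero] at ht; omega
    have hi : t / n < K := Nat.div_lt_of_lt_mul (by rw [mul_comm]; exact ht)
    have h3 := congrFun (congrFun h2 ⟨t / n, hi⟩) ⟨t % n, Nat.mod_lt _ hn⟩
    simp only [word] at h3
    rw [← Function.iterate_add_apply, ← Function.iterate_add_apply] at h3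
    have e : t % n + t / n * n = t := by
      rw [mul_comm]; exact Nat.mod_add_div t n
    rw [e] at h3
    exact h3
  have hmaps : ∀ x ∈ Y, code x ∈ tgt := by
    intro x hx
    rw [htgt, mem_sigma]
    constructor
    · rw [mem_filter]
      refine ⟨mem_univ _, ?_⟩
      refine le_trans (le_of_eq ?_) (hbad x hx)
      rw [hcode]
      simp only
      norm_cast
      rw [← card_map Fin.valEmbedding]
      congr 1
      ext i
      simp only [mem_map, mem_filter, mem_univ, true_and, Fin.valEmbedding_apply, mem_range]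
      constructor
      · rintro ⟨j, hj, rfl⟩
        exact ⟨j.2, hj⟩
      · rintro ⟨hi, h⟩
        exact ⟨⟨i, hi⟩, h, rfl⟩
    · rw [Fintype.mem_piFinset]
      intro i
      rw [hcode]
      simp only [mem_filter, mem_univ, true_and]
      by_cases h : word n (T^[(i : ℕ) * n] x) ∈ W
      · rw [if_neg (not_not.2 h)]; exact h
      · rw [if_pos h]; exact hwordA _
  have h1 : Y.card ≤ tgt.card := card_le_card_of_injOn code hmaps hcodeinj
  have h2 : (tgt.card : ℝ) ≤ (2 ^ n / s) ^ J * (1 + s) ^ K * w ^ K := by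
    have hbase : (1 : ℝ) ≤ 2 ^ n / s := by
      rw [le_div_iff₀ hs0]
      have : (1 : ℝ) ≤ 2 ^ n := one_le_pow₀ (by norm_num)
      linarith
    rw [htgt, card_sigma]
    push_cast
    have hterm : ∀ B ∈ (univ.filter fun B : Finset (Fin K) => (B.card : ℝ) ≤ J),
        ((Fintype.piFinset (fun i => if i ∈ B then A else W)).card : ℝ) ≤
          (2 ^ n / s) ^ J * w ^ K * (s ^ B.card * 1 ^ (Fintype.card (Fin K) - B.card)) := by
      intro B hB
      rw [mem_filter] at hB
      rw [Fintype.card_piFinset]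
      push_cast
      have e1 : ∀ i : Fin K, (((if i ∈ B then A else W).card : ℕ) : ℝ) ≤
          (if i ∈ B then (2 : ℝ) ^ n else 1) * w := by
        intro i
        by_cases hi : i ∈ B
        · rw [if_pos hi, if_pos hi, hAcard]
          push_cast
          have : (0 : ℝ) < 2 ^ n := by positivity
          nlinarith
        · rw [if_neg hi, if_neg hi, one_mul]; exact hw
      calc ∏ i : Fin K, (((if i ∈ B then A else W).card : ℕ) : ℝ)
          ≤ ∏ i : Fin K, ((if i ∈ B then (2 : ℝ) ^ n else 1) * w) :=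
            prod_le_prod (fun i _ => by positivity) (fun i _ => e1 i)
        _ = (2 ^ n) ^ B.card * w ^ K := by
            rw [prod_mul_distrib, prod_const, card_univ, Fintype.card_fin, prod_ite_mem,
              univ_inter, prod_const]
        _ ≤ (2 ^ n / s) ^ J * w ^ K * (s ^ B.card * 1 ^ (Fintype.card (Fin K) - B.card)) := by
            have e2 : ((2 : ℝ) ^ n) ^ B.card = (2 ^ n / s) ^ ((B.card : ℕ) : ℝ) * s ^ B.card := by
              rw [Real.rpow_natCast, ← mul_pow]
              congr 1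
              field_simp
            rw [e2]
            have e3 : ((2 : ℝ) ^ n / s) ^ ((B.card : ℕ) : ℝ) ≤ (2 ^ n / s) ^ J :=
              Real.rpow_le_rpow_of_exponent_le hbase hB.2
            have e4 : (0 : ℝ) ≤ s ^ B.card * w ^ K := by positivity
            calc ((2 : ℝ) ^ n / s) ^ ((B.card : ℕ) : ℝ) * s ^ B.card * w ^ K
                = ((2 : ℝ) ^ n / s) ^ ((B.card : ℕ) : ℝ) * (s ^ B.card * w ^ K) := by ring
              _ ≤ (2 ^ n / s) ^ J * (s ^ B.card * w ^ K) := mul_le_mul_of_nonneg_right e3 e4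
              _ = _ := by rw [one_pow]; ring
    calc ∑ B ∈ (univ.filter fun B : Finset (Fin K) => (B.card : ℝ) ≤ J),
          ((Fintype.piFinset (fun i => if i ∈ B then A else W)).card : ℝ)
        ≤ ∑ B ∈ (univ.filter fun B : Finset (Fin K) => (B.card : ℝ) ≤ J),
          (2 ^ n / s) ^ J * w ^ K * (s ^ B.card * 1 ^ (Fintype.card (Fin K) - B.card)) :=
          sum_le_sum hterm
      _ ≤ ∑ B : Finset (Fin K),
          (2 ^ n / s) ^ J * w ^ K * (s ^ B.card * 1 ^ (Fintype.card (Fin K) - B.card)) := by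
          apply sum_le_sum_of_subset_of_nonneg (filter_subset _ _)
          intro B _ _
          positivity
      _ = (2 ^ n / s) ^ J * (1 + s) ^ K * w ^ K := by
          rw [← mul_sum, Fintype.sum_pow_mul_eq_add_pow, Fintype.card_fin, add_comm s 1]
          ring
  have h3 : (Y.card : ℝ) ≤ tgt.card := by exact_mod_cast h1
  exact h3.trans h2

end Pool.Agent.W5h23
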