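import Mathlib
import Pool.Agent.W5h23.Entropy

set_option autoImplicit false

/-!
Cycles of the 3x+1 map many of whose elements are polynomially bounded have positive entropy.
-/

namespace Pool.Agent.W5h23

open Finset Pool.Agent.H319R2 Pool.Agent.H547R3

/-- the number of words of length `K n` with few bad blocks is small -/
theorem exponent_bound {κ : ℝ} (hκ : 0 < κ) : ∃ (s θ : ℝ), 0 < s ∧ s ≤ 1 ∧ 0 < θ ∧
    ∀ (n K : ℕ) (h : ℝ), 1 ≤ n → 0 ≤ h → h ≤ κ / 3 →
      ((2 : ℝ) ^ n / s) ^ (θ * K) * (1 + s) ^ K * ((2 : ℝ) ^ (h * n)) ^ K ≤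
        2 ^ (κ * (K * n)) := by
  have h2k : 1 < (2 : ℝ) ^ (κ / 3) := Real.one_lt_rpow (by norm_num) (by positivity)
  obtain ⟨a, ha⟩ := exists_pow_lt_of_lt_one (sub_pos.2 h2k) (by norm_num : (1 / 2 : ℝ) < 1)
  refine ⟨(1 / 2 : ℝ) ^ a, κ / (3 * (1 + a)), by positivity,
    pow_le_one₀ (by norm_num) (by norm_num), by positivity, ?_⟩
  intro n K h hn hh hhκ
  have hnr : (1 : ℝ) ≤ n := by exact_mod_cast hn
  have hK0 : (0 : ℝ) ≤ K := Nat.cast_nonneg K
  have ha0 : (0 : ℝ) ≤ a := Nat.cast_nonneg a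
  have e1 : ((2 : ℝ) ^ n / (1 / 2 : ℝ) ^ a) = (2 : ℝ) ^ ((n : ℝ) + a) := by
    rw [Real.rpow_add (by norm_num), Real.rpow_natCast, Real.rpow_natCast, one_div, inv_pow,
      div_inv_eq_mul]
  have b1 : ((2 : ℝ) ^ n / (1 / 2 : ℝ) ^ a) ^ (κ / (3 * (1 + a)) * K) ≤
      (2 : ℝ) ^ (κ / 3 * (K * n)) := by
    rw [e1, ← Real.rpow_mul (by norm_num)]
    apply Real.rpow_le_rpow_of_exponent_le (by norm_num)
    have h1 : (n : ℝ) + a ≤ (1 + a) * n := by nlinarith
    calc ((n : ℝ) + a) * (κ / (3 * (1 + a)) * K) ≤ ((1 + a) * n) * (κ / (3 * (1 + a)) * K) :=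
          mul_le_mul_of_nonneg_right h1 (by positivity)
      _ = κ / 3 * (K * n) := by field_simp
  have b2 : (1 + (1 / 2 : ℝ) ^ a) ^ K ≤ (2 : ℝ) ^ (κ / 3 * (K * n)) := by
    have h1 : 1 + (1 / 2 : ℝ) ^ a ≤ 2 ^ (κ / 3) := by linarith
    calc (1 + (1 / 2 : ℝ) ^ a) ^ K ≤ ((2 : ℝ) ^ (κ / 3)) ^ K :=
          pow_le_pow_left₀ (by positivity) h1 K
      _ = (2 : ℝ) ^ (κ / 3 * K) := by rw [← Real.rpow_natCast, ← Real.rpow_mul (by norm_num)]
      _ ≤ (2 : ℝ) ^ (κ / 3 * (K * n)) := by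
          apply Real.rpow_le_rpow_of_exponent_le (by norm_num)
          apply mul_le_mul_of_nonneg_left _ (by positivity)
          nlinarith
  have b3 : ((2 : ℝ) ^ (h * n)) ^ K ≤ (2 : ℝ) ^ (κ / 3 * (K * n)) := by
    rw [← Real.rpow_natCast, ← Real.rpow_mul (by norm_num)]
    apply Real.rpow_le_rpow_of_exponent_le (by norm_num)
    calc h * n * K = h * (K * n) := by ring
      _ ≤ κ / 3 * (K * n) := mul_le_mul_of_nonneg_right hhκ (by positivity)
  calc ((2 : ℝ) ^ n / (1 / 2 : ℝ) ^ a) ^ (κ / (3 * (1 + a)) * K) * (1 + (1 / 2 : ℝ) ^ a) ^ K *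
        ((2 : ℝ) ^ (h * n)) ^ K
      ≤ (2 : ℝ) ^ (κ / 3 * (K * n)) * (2 : ℝ) ^ (κ / 3 * (K * n)) * (2 : ℝ) ^ (κ / 3 * (K * n)) := by
        apply mul_le_mul (mul_le_mul b1 b2 (by positivity) (by positivity)) b3 (by positivity)
          (by positivity)
    _ = 2 ^ (κ * (K * n)) := by
        rw [← Real.rpow_add (by norm_num), ← Real.rpow_add (by norm_num)]
        congr 1
        ring

/-- the number of elements of a cycle with few bad blocks -/
theorem few_bad {Z : Finset ℤ} (hZ : IsCycle Z) {n : ℕ} (K : ℕ) (W : Finset (Fin n → ℤ))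
    (X δ h θ : ℝ) (hθ : 0 < θ) (hK : 0 < K) (hh : h ≤ θ * δ / 2)
    (hlow : δ * Z.card ≤ (Z.filter fun x : ℤ => |(x : ℝ)| ≤ X).card)
    (hU : ((Z.filter fun x => word n x ∉ W).card : ℝ) < h * Z.card) :
    δ / 2 * Z.card ≤ ((Z.filter fun x : ℤ => |(x : ℝ)| ≤ X).filter fun x =>
      (((range K).filter fun i => word n (T^[i * n] x) ∉ W).card : ℝ) ≤ θ * K).card := by
  classical
  set Z' := Z.filter fun x : ℤ => |(x : ℝ)| ≤ X with hZ'
  set bad : ℤ → ℕ := fun x => ((range K).filter fun i => word n (T^[i * n] x) ∉ W).card with hbad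
  have hKr : (0 : ℝ) < K := by exact_mod_cast hK
  have hsum : ∑ x ∈ Z, bad x = K * (Z.filter fun x => word n x ∉ W).card := by
    have e1 : ∀ x, bad x = ∑ i ∈ range K, if word n (T^[i * n] x) ∉ W then 1 else 0 := by
      intro x
      rw [hbad]
      exact card_filter _ _
    simp_rw [e1]
    rw [sum_comm]
    have e2 : ∀ i ∈ range K, (∑ x ∈ Z, if word n (T^[i * n] x) ∉ W then 1 else 0) =
        (Z.filter fun x => word n x ∉ W).card := by
      intro i _
      rw [card_filter]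
      exact IsCycle.sum_iter hZ (fun x => if word n x ∉ W then 1 else 0) (i * n)
    rw [sum_congr rfl e2, sum_const, card_range, smul_eq_mul]
  set Bd := Z.filter fun x => ¬ ((bad x : ℝ) ≤ θ * K) with hBd
  have h1 : (Bd.card : ℝ) * (θ * K) ≤ ∑ x ∈ Z, (bad x : ℝ) := by
    calc (Bd.card : ℝ) * (θ * K) = ∑ x ∈ Bd, (θ * K) := by rw [sum_const, nsmul_eq_mul]
      _ ≤ ∑ x ∈ Bd, (bad x : ℝ) := by
          apply sum_le_sum
          intro x hx
          rw [hBd, mem_filter, not_le] at hx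
          exact hx.2.le
      _ ≤ ∑ x ∈ Z, (bad x : ℝ) :=
          sum_le_sum_of_subset_of_nonneg (filter_subset _ _) (fun _ _ _ => by positivity)
  have h2 : ∑ x ∈ Z, (bad x : ℝ) ≤ K * (h * Z.card) := by
    have : ((∑ x ∈ Z, bad x : ℕ) : ℝ) = K * ((Z.filter fun x => word n x ∉ W).card : ℝ) := by
      rw [hsum]; push_cast; ring
    push_cast at this
    rw [this]
    exact mul_le_mul_of_nonneg_left hU.le hKr.le
  have h3 : (Bd.card : ℝ) ≤ δ / 2 * Z.card := by
    have h4 : (Bd.card : ℝ) * (θ * K) ≤ (δ / 2 * Z.card) * (θ * K) := by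
      refine (h1.trans h2).trans ?_
      have : h * Z.card ≤ θ * δ / 2 * Z.card := mul_le_mul_of_nonneg_right hh (by positivity)
      nlinarith
    exact le_of_mul_le_mul_right h4 (by positivity)
  have h5 : (Z'.filter fun x => (bad x : ℝ) ≤ θ * K).card +
      (Z'.filter fun x => ¬ ((bad x : ℝ) ≤ θ * K)).card = Z'.card :=
    Finset.card_filter_add_card_filter_not _
  have h6 : (Z'.filter fun x => ¬ ((bad x : ℝ) ≤ θ * K)).card ≤ Bd.card := by
    apply card_le_card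
    intro x hx
    rw [mem_filter, hZ', mem_filter] at hx
    rw [hBd, mem_filter]
    exact ⟨hx.1.1, hx.2⟩
  have h5' : ((Z'.filter fun x => (bad x : ℝ) ≤ θ * K).card : ℝ) +
      (Z'.filter fun x => ¬ ((bad x : ℝ) ≤ θ * K)).card = Z'.card := by exact_mod_cast h5
  have h6' : ((Z'.filter fun x => ¬ ((bad x : ℝ) ≤ θ * K)).card : ℝ) ≤ Bd.card := by
    exact_mod_cast h6
  linarith

theorem entropy_main (C δ : ℝ) (hC : 1 ≤ C) (hδ : 0 < δ) : ∃ h : ℝ, 0 < h ∧ ∃ P : ℝ,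
    ∀ Z : Finset ℤ, IsCycle Z → ∀ N : ℝ, 1 ≤ N → (∀ x ∈ Z, N ≤ |(x : ℝ)|) →
    δ * Z.card ≤ (Z.filter fun x : ℤ => |(x : ℝ)| ≤ (Z.card * N) ^ C).card →
    ∀ n : ℕ, 1 ≤ n → (2 : ℝ) ^ n ≤ (Z.card * N) ^ C →
    ∀ W : Finset (Fin n → ℤ), (W.card : ℝ) ≤ 2 ^ (h * n) →
    ((Z.filter fun x => word n x ∉ W).card : ℝ) < h * Z.card → (Z.card : ℝ) ≤ P := by
  classical
  obtain ⟨D, hD1, hD⟩ := min_bound_cycle
  set κ : ℝ := 1 / (60 * C) with hκdef
  have hκ : 0 < κ := by positivity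
  obtain ⟨s, θ, hs0, hs1, hθ, hexp⟩ := exponent_bound hκ
  set h : ℝ := min (κ / 3) (θ * δ / 2) with hh
  have hh0 : 0 < h := lt_min (by positivity) (by positivity)
  set A : ℝ := (8 * D ^ C) ^ (2 * κ) with hA
  have hD0 : 0 < D := by linarith
  have hA0 : 0 < A := by positivity
  refine ⟨h, hh0, (2 * A / δ) ^ 2, ?_⟩
  intro Z hZ N hN hmin hlow n hn h2n W hW hU
  obtain ⟨p, hp⟩ : ∃ p, p = Z.card := ⟨_, rfl⟩
  have hp0 : 0 < p := by rw [hp]; exact hZ.card_pos
  have hp1 : (1 : ℝ) ≤ p := by exact_mod_cast hp0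
  have hppos : (0 : ℝ) < p := by linarith
  have hNp : N ≤ D * (p : ℝ) ^ 14 := by
    obtain ⟨x, hx, -, hxD⟩ := hD Z hZ
    rw [← hp] at hxD
    exact (hmin x hx).trans hxD
  rw [← hp] at h2n hlow ⊢
  set X : ℝ := ((p : ℝ) * N) ^ C with hX
  have hX1 : 1 ≤ X := Real.one_le_rpow (by nlinarith) (by linarith)
  have hX0 : 0 < X := by linarith
  -- choose k
  set m : ℕ := ⌊2 * X⌋₊ with hm
  set k : ℕ := Nat.log 2 m + 1 with hk
  have hm0 : m ≠ 0 := by
    have : 1 ≤ m := Nat.one_le_floor_iff _ |>.2 (by linarith)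
    omega
  have hkup : 2 * X < 2 ^ k := by
    have h1 := Nat.lt_pow_succ_log_self (b := 2) (by norm_num) m
    have h2 : m + 1 ≤ 2 ^ k := h1
    have h3 : 2 * X < m + 1 := Nat.lt_floor_add_one _
    have h4 : ((m + 1 : ℕ) : ℝ) ≤ ((2 ^ k : ℕ) : ℝ) := by exact_mod_cast h2
    push_cast at h4
    linarith
  have hklow : (2 : ℝ) ^ k ≤ 8 * X := by
    have h1 := Nat.pow_log_le_self 2 hm0
    have h3 : (m : ℝ) ≤ 2 * X := Nat.floor_le (by positivity)
    have h4 : ((2 ^ Nat.log 2 m : ℕ) : ℝ) ≤ (m : ℝ) := by exact_mod_cast h1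
    push_cast at h4
    rw [hk, pow_succ]
    nlinarith
  have hnk : n ≤ k := by
    by_contra hcon
    push Not at hcon
    have h1 : (2 : ℝ) ^ k ≤ 2 ^ n := pow_le_pow_right₀ (by norm_num) hcon.le
    linarith
  set K : ℕ := k / n + 1 with hK
  have hKn : k < K * n := by
    rw [hK]
    exact Nat.lt_mul_of_div_lt (Nat.lt_succ_self _) (by omega)
  have hKn2 : K * n ≤ 2 * k := by
    rw [hK, add_mul, one_mul]
    have := Nat.div_mul_le_self k n
    omega
  have hfb := few_bad hZ K W X δ h θ hθ (Nat.succ_pos _) (min_le_right _ _) (by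
    rw [← hp]; exact hlow) hU
  rw [← hp] at hfb
  set Y := (Z.filter fun x : ℤ => |(x : ℝ)| ≤ X).filter fun x =>
      (((range K).filter fun i => word n (T^[i * n] x) ∉ W).card : ℝ) ≤ θ * K with hY
  have hcount := count_words (K := K) Y W (θ * K) s (2 ^ (h * n)) (by
    intro x hx y hy hxy
    rw [hY, mem_filter, mem_filter] at hx hy
    have hdvd := same_par k x y (fun i hi => hxy i (by omega))
    have habs : |x - y| < 2 ^ k := by
      have h3 : |((x - y : ℤ) : ℝ)| < 2 ^ k := by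
        push_cast
        refine lt_of_le_of_lt (abs_sub _ _) ?_
        linarith [hx.1.2, hy.1.2]
      exact_mod_cast h3
    have := Int.eq_zero_of_abs_lt_dvd hdvd habs
    omega) (by
    intro x hx
    rw [hY, mem_filter] at hx
    exact hx.2) hs0 hs1 hW (Real.one_le_rpow (by norm_num) (by positivity))
  have h1 := hcount.trans (hexp n K h hn hh0.le (min_le_left _ _))
  have h2 : (2 : ℝ) ^ (κ * (K * n)) ≤ A * (p : ℝ) ^ (1 / 2 : ℝ) := by
    have h3 : κ * ((K : ℝ) * n) ≤ (k : ℝ) * (2 * κ) := by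
      have : (K : ℝ) * n ≤ 2 * k := by exact_mod_cast hKn2
      nlinarith
    calc (2 : ℝ) ^ (κ * (K * n)) ≤ 2 ^ ((k : ℝ) * (2 * κ)) :=
          Real.rpow_le_rpow_of_exponent_le (by norm_num) h3
      _ = ((2 : ℝ) ^ k) ^ (2 * κ) := by rw [Real.rpow_mul (by norm_num), Real.rpow_natCast]
      _ ≤ (8 * X) ^ (2 * κ) := Real.rpow_le_rpow (by positivity) hklow (by positivity)
      _ ≤ (8 * (D ^ C * (p : ℝ) ^ (15 * C))) ^ (2 * κ) := by
          apply Real.rpow_le_rpow (by positivity) _ (by positivity)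
          apply mul_le_mul_of_nonneg_left _ (by norm_num)
          rw [hX]
          calc ((p : ℝ) * N) ^ C ≤ (D * (p : ℝ) ^ (15 : ℝ)) ^ C := by
                apply Real.rpow_le_rpow (by positivity) _ (by linarith)
                have e : (p : ℝ) ^ (15 : ℝ) = (p : ℝ) ^ 14 * p := by
                  rw [← pow_succ]; norm_cast
                rw [e]
                nlinarith
            _ = D ^ C * (p : ℝ) ^ (15 * C) := by
                rw [Real.mul_rpow hD0.le (by positivity), ← Real.rpow_mul hppos.le]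
      _ = A * (p : ℝ) ^ (1 / 2 : ℝ) := by
          rw [← mul_assoc, Real.mul_rpow (by positivity) (by positivity), ← Real.rpow_mul hppos.le,
            hA]
          congr 2
          rw [hκdef]
          field_simp
          norm_num
  have h3 : δ / 2 * p ≤ A * (p : ℝ) ^ (1 / 2 : ℝ) := (hfb.trans h1).trans h2
  set r : ℝ := (p : ℝ) ^ (1 / 2 : ℝ) with hr
  have hr0 : 0 < r := by positivity
  have hrr : (p : ℝ) = r ^ 2 := by
    rw [hr, ← Real.rpow_natCast, ← Real.rpow_mul hppos.le]; norm_num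
  have h4 : r ≤ 2 * A / δ := by
    rw [le_div_iff₀ hδ]
    rw [hrr] at h3
    have h5 : r * (r * δ) ≤ r * (2 * A) := by nlinarith
    exact le_of_mul_le_mul_left h5 hr0
  rw [hrr]
  exact pow_le_pow_left₀ hr0.le h4 2

end Pool.Agent.W5h23
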