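import Mathlib
import Pool.Agent.W5h23.Entropy2

set_option autoImplicit false

/-!
Cycles of the 3x+1 map many of whose elements are polynomially bounded: the number of circuits.
-/

namespace Pool.Agent.W5h23

open Finset Pool.Agent.H319R2 Pool.Agent.H547R3

/-- the number of ascents of the parity equals the number of descents -/
theorem up_eq_down {Z : Finset ℤ} (hZ : IsCycle Z) :
    (Z.filter fun x => x % 2 = 0 ∧ T x % 2 = 1).card =
      (Z.filter fun x => x % 2 = 1 ∧ T x % 2 = 0).card := by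
  classical
  have h1 := IsCycle.sum_T hZ (fun x => x % 2)
  have h2 : ∑ x ∈ Z, (T x % 2 - x % 2) = 0 := by
    rw [sum_sub_distrib, h1, sub_self]
  have h3 : ∀ x ∈ Z, T x % 2 - x % 2 = (if x % 2 = 0 ∧ T x % 2 = 1 then 1 else 0) -
      (if x % 2 = 1 ∧ T x % 2 = 0 then 1 else 0) := by
    intro x _
    rcases par x with hx | hx <;> rcases par (T x) with hy | hy <;> simp [hx, hy]
  rw [sum_congr rfl h3, sum_sub_distrib, sub_eq_zero] at h2
  rw [card_filter, card_filter]
  have h4 : ((∑ x ∈ Z, if x % 2 = 0 ∧ T x % 2 = 1 then 1 else 0 : ℕ) : ℤ) =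
      ((∑ x ∈ Z, if x % 2 = 1 ∧ T x % 2 = 0 then 1 else 0 : ℕ) : ℤ) := by
    push_cast
    exact h2
  exact_mod_cast h4

theorem change_card {Z : Finset ℤ} (hZ : IsCycle Z) :
    (Z.filter fun x => x % 2 ≠ T x % 2).card = 2 * (Z.filter fun x => x % 2 = 0 ∧ T x % 2 = 1).card := by
  classical
  have h1 : (Z.filter fun x => x % 2 ≠ T x % 2) = (Z.filter fun x => x % 2 = 0 ∧ T x % 2 = 1) ∪
      (Z.filter fun x => x % 2 = 1 ∧ T x % 2 = 0) := by
    ext x
    simp only [mem_filter, mem_union]
    rcases par x with hx | hx <;> rcases par (T x) with hy | hy <;> simp [hx, hy]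
  rw [h1, card_union_of_disjoint, ← up_eq_down hZ]
  · ring
  · rw [disjoint_left]
    intro x hx hx'
    rw [mem_filter] at hx hx'
    omega

/-- words which are not constant see a change of parity -/
theorem nonconst_card {Z : Finset ℤ} (hZ : IsCycle Z) (n : ℕ) :
    (Z.filter fun x => word n x ∉ ({fun _ => 0, fun _ => 1} : Finset (Fin n → ℤ))).card ≤
      2 * n * (Z.filter fun x => x % 2 = 0 ∧ T x % 2 = 1).card := by
  classical
  have hsub : (Z.filter fun x => word n x ∉ ({fun _ => 0, fun _ => 1} : Finset (Fin n → ℤ))) ⊆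
      (range n).biUnion fun j => Z.filter fun x => T^[j] x % 2 ≠ T (T^[j] x) % 2 := by
    intro x hx
    rw [mem_filter, mem_insert, mem_singleton, not_or] at hx
    obtain ⟨hxZ, h0, h1⟩ := hx
    rw [mem_biUnion]
    by_contra hcon
    push Not at hcon
    have hstep : ∀ j < n, T^[j] x % 2 = x % 2 := by
      intro j
      induction j with
      | zero => intro _; rfl
      | succ j ih =>
        intro hj
        have h2 := hcon j (mem_range.2 (by omega))
        rw [mem_filter] at h2
        push Not at h2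
        have h3 := h2 hxZ
        rw [Function.iterate_succ_apply', ← h3]
        exact ih (by omega)
    rcases par x with hx | hx
    · apply h0
      funext j
      unfold word
      rw [hstep j j.2, hx]
    · apply h1
      funext j
      unfold word
      rw [hstep j j.2, hx]
  refine (card_le_card hsub).trans (card_biUnion_le.trans ?_)
  have h1 : ∀ j ∈ range n, (Z.filter fun x => T^[j] x % 2 ≠ T (T^[j] x) % 2).card =
      2 * (Z.filter fun x => x % 2 = 0 ∧ T x % 2 = 1).card := by
    intro j _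
    rw [← change_card hZ]
    exact IsCycle.card_iter hZ (fun x => x % 2 ≠ T x % 2) j
  rw [sum_congr rfl h1, sum_const, card_range, smul_eq_mul]
  apply le_of_eq
  ring

/-- **Positive entropy.** -/
theorem positive_entropy (C δ : ℝ) (hC : 1 ≤ C) (hδ : 0 < δ) : ∃ h : ℝ, 0 < h ∧
    {Z : Finset ℤ | IsCycle Z ∧ ∃ N : ℝ, 1 ≤ N ∧ (∀ x ∈ Z, N ≤ |(x : ℝ)|) ∧
      δ * Z.card ≤ (Z.filter fun x : ℤ => |(x : ℝ)| ≤ (Z.card * N) ^ C).card ∧
      ¬ ((∀ n : ℕ, 1 ≤ n → (2 : ℝ) ^ n ≤ (Z.card * N) ^ C →
          ∀ W : Finset (Fin n → ℤ), (W.card : ℝ) ≤ 2 ^ (h * n) →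
          h * Z.card ≤ (Z.filter fun x => word n x ∉ W).card) ∧
        h * Z.card ≤ (Z.filter fun x => x % 2 = 0 ∧ T x % 2 = 1).card)}.Finite := by
  classical
  obtain ⟨h, hh, P, hP⟩ := entropy_main C δ hC hδ
  -- the length of the words for the second part
  obtain ⟨n0, hn0⟩ := exists_nat_ge (1 / h)
  have hn01 : 1 ≤ n0 := by
    by_contra hcon
    have : n0 = 0 := by omega
    rw [this] at hn0
    have : 0 < 1 / h := by positivity
    simp at hn0
    linarith
  have hn0r : (1 : ℝ) ≤ n0 := by exact_mod_cast hn01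
  have h2n0 : (2 : ℝ) ≤ 2 ^ (h * n0) := by
    have h1 : 1 ≤ h * n0 := by
      rw [div_le_iff₀ hh] at hn0
      linarith
    calc (2 : ℝ) = 2 ^ (1 : ℝ) := by norm_num
      _ ≤ _ := Real.rpow_le_rpow_of_exponent_le (by norm_num) h1
  have hh' : h / (2 * n0) ≤ h := by
    rw [div_le_iff₀ (by positivity)]
    nlinarith
  refine ⟨h / (2 * n0), by positivity, ?_⟩
  apply ((finite_card P).union (finite_card ((2 : ℝ) ^ n0))).subset
  rintro Z ⟨hZ, N, hN1, hmin, hlow, hnot⟩
  by_contra hcon
  simp only [Set.mem_union, Set.mem_ofPred_eq, not_or, not_and, not_le] at hcon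
  have hP1 := hcon.1 hZ
  have hP2 := hcon.2 hZ
  have hp0 : (1 : ℝ) ≤ Z.card := by exact_mod_cast hZ.card_pos
  apply hnot
  constructor
  · intro n hn h2n W hW
    by_contra hcon2
    push Not at hcon2
    have hW' : (W.card : ℝ) ≤ 2 ^ (h * n) := by
      refine hW.trans (Real.rpow_le_rpow_of_exponent_le (by norm_num) ?_)
      exact mul_le_mul_of_nonneg_right hh' (Nat.cast_nonneg n)
    have h1 : ((Z.filter fun x => word n x ∉ W).card : ℝ) < h * Z.card :=
      lt_of_lt_of_le hcon2 (mul_le_mul_of_nonneg_right hh' (by linarith))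
    exact absurd (hP Z hZ N hN1 hmin hlow n hn h2n W hW' h1) (not_le.2 hP1)
  · set W : Finset (Fin n0 → ℤ) := {fun _ => 0, fun _ => 1} with hWdef
    have hWc : (W.card : ℝ) ≤ 2 ^ (h * n0) := by
      refine le_trans ?_ h2n0
      have : W.card ≤ 2 := by
        rw [hWdef]; exact (card_insert_le _ _).trans (by simp)
      exact_mod_cast this
    have hbase : 1 ≤ (Z.card : ℝ) * N := by nlinarith
    have h2n : (2 : ℝ) ^ n0 ≤ (Z.card * N) ^ C := by
      calc (2 : ℝ) ^ n0 ≤ Z.card * N := by nlinarith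
        _ = (Z.card * N) ^ (1 : ℝ) := by rw [Real.rpow_one]
        _ ≤ _ := Real.rpow_le_rpow_of_exponent_le hbase hC
    have h1 : h * Z.card ≤ ((Z.filter fun x => word n0 x ∉ W).card : ℝ) := by
      by_contra hcon2
      push Not at hcon2
      exact absurd (hP Z hZ N hN1 hmin hlow n0 hn01 h2n W hWc hcon2) (not_le.2 hP1)
    have h2 := nonconst_card hZ n0
    rw [← hWdef] at h2
    have h2' : ((Z.filter fun x => word n0 x ∉ W).card : ℝ) ≤
        2 * n0 * ((Z.filter fun x => x % 2 = 0 ∧ T x % 2 = 1).card : ℝ) := by exact_mod_cast h2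
    rw [div_mul_eq_mul_div, div_le_iff₀ (by positivity)]
    linarith

end Pool.Agent.W5h23
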