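import Mathlib
import Pool.Agent.W5h23.Entropy3

set_option autoImplicit false

/-!
Cycles of the 3x+1 map: the number of circuits and the size of the elements.
-/

namespace Pool.Agent.W5h23

open Finset Pool.Agent.H319R2 Pool.Agent.H547R3

/-- integers with few changes of parity -/
theorem count_changes {k : ℕ} (Y : Finset ℤ) (J s : ℝ)
    (hinj : ∀ x ∈ Y, ∀ y ∈ Y, (∀ t < k, T^[t] x % 2 = T^[t] y % 2) → x = y)
    (hch : ∀ x ∈ Y, (((range k).filter fun i => T^[i] x % 2 ≠ T^[i + 1] x % 2).card : ℝ) ≤ J)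
    (hs0 : 0 < s) (hs1 : s ≤ 1) :
    (Y.card : ℝ) ≤ 2 * ((1 / s) ^ J * (1 + s) ^ k) := by
  classical
  obtain ⟨code, hcode⟩ : ∃ code : ℤ → (Finset ℕ × ℤ), ∀ x, code x =
      ((range k).filter fun i => T^[i] x % 2 ≠ T^[i + 1] x % 2, x % 2) := ⟨_, fun x => rfl⟩
  have hci : Set.InjOn code Y := by
    intro x hx y hy hxy
    rw [hcode, hcode, Prod.mk.injEq] at hxy
    obtain ⟨h1, h2⟩ := hxy
    apply hinj x hx y hy
    intro t
    induction t with
    | zero => intro _; exact h2
    | succ t ih =>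
      intro ht
      have h3 := ih (by omega)
      have h4 : (T^[t] x % 2 ≠ T^[t + 1] x % 2) ↔ (T^[t] y % 2 ≠ T^[t + 1] y % 2) := by
        have h5 : t ∈ ((range k).filter fun i => T^[i] x % 2 ≠ T^[i + 1] x % 2) ↔
            t ∈ ((range k).filter fun i => T^[i] y % 2 ≠ T^[i + 1] y % 2) := by rw [h1]
        simp only [mem_filter, mem_range] at h5
        have h6 : t < k := by omega
        tauto
      rcases par (T^[t + 1] x) with hx' | hx' <;> rcases par (T^[t + 1] y) with hy' | hy' <;>
        rcases par (T^[t] x) with hx'' | hx'' <;> rw [hx'] at h4 ⊢ <;> rw [hy'] at h4 ⊢ <;>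
        rw [← h3, hx''] at h4 <;> simp at h4
  set Sm := (range k).powerset.filter (fun B => (B.card : ℝ) ≤ J) with hSm
  have hmem : ∀ x ∈ Y, code x ∈ Sm ×ˢ ({0, 1} : Finset ℤ) := by
    intro x hx
    rw [hcode, mem_product, hSm, mem_filter, mem_powerset]
    refine ⟨⟨filter_subset _ _, hch x hx⟩, ?_⟩
    rw [mem_insert, mem_singleton]
    exact par x
  have h1 := card_le_card_of_injOn code hmem hci
  rw [card_product] at h1
  have h2 : ({0, 1} : Finset ℤ).card = 2 := by simp
  rw [h2] at h1
  have h1' : (Y.card : ℝ) ≤ (Sm.card : ℝ) * 2 := by exact_mod_cast h1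
  have hbase : (1 : ℝ) ≤ 1 / s := by rw [le_div_iff₀ hs0]; linarith
  have h3 : (Sm.card : ℝ) ≤ (1 / s) ^ J * (1 + s) ^ k := by
    have h4 : ∀ B ∈ Sm, (1 : ℝ) ≤ (1 / s) ^ J * s ^ B.card := by
      intro B hB
      rw [hSm, mem_filter] at hB
      have e2 : (1 : ℝ) = (1 / s) ^ ((B.card : ℕ) : ℝ) * s ^ B.card := by
        rw [Real.rpow_natCast, ← mul_pow, one_div, inv_mul_cancel₀ hs0.ne', one_pow]
      calc (1 : ℝ) = (1 / s) ^ ((B.card : ℕ) : ℝ) * s ^ B.card := e2
        _ ≤ (1 / s) ^ J * s ^ B.card :=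
          mul_le_mul_of_nonneg_right (Real.rpow_le_rpow_of_exponent_le hbase hB.2) (by positivity)
    calc (Sm.card : ℝ) = ∑ B ∈ Sm, (1 : ℝ) := by rw [sum_const, nsmul_eq_mul, mul_one]
      _ ≤ ∑ B ∈ Sm, (1 / s) ^ J * s ^ B.card := sum_le_sum h4
      _ ≤ ∑ B ∈ (range k).powerset, (1 / s) ^ J * s ^ B.card := by
          apply sum_le_sum_of_subset_of_nonneg (filter_subset _ _)
          intro B _ _
          positivity
      _ = (1 / s) ^ J * (1 + s) ^ k := by
          rw [← mul_sum]
          congr 1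
          have h2 := Finset.prod_add (fun _ : ℕ => s) (fun _ : ℕ => (1 : ℝ)) (range k)
          simp only [prod_const, one_pow, mul_one, card_range] at h2
          rw [← h2, add_comm]
  linarith

/-- a cycle with more than one element has a circuit -/
theorem circuit_pos {Z : Finset ℤ} (hZ : IsCycle Z) (h1 : 1 < Z.card) :
    1 ≤ (Z.filter fun x => x % 2 = 0 ∧ T x % 2 = 1).card := by
  classical
  by_contra hcon
  have h0 : (Z.filter fun x => x % 2 = 0 ∧ T x % 2 = 1).card = 0 := by omega
  have h2 := change_card hZ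
  rw [h0, mul_zero, card_eq_zero, filter_eq_empty_iff] at h2
  have h3 : ∀ x ∈ Z, T x = x := by
    intro x hx
    by_contra hne
    have hpar : ∀ k : ℕ, (2 : ℤ) ^ k ∣ x - T x := by
      intro k
      apply same_par
      intro i _
      have h4 := h2 (hZ.closed hx i)
      push Not at h4
      rw [h4, ← Function.iterate_succ_apply' T, Function.iterate_succ_apply T]
    have h5 : x - T x ≠ 0 := fun h => hne (by omega)
    obtain ⟨k, hk⟩ := pow_unbounded_of_one_lt (|x - T x|) (by norm_num : (1 : ℤ) < 2)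
    exact h5 (Int.eq_zero_of_abs_lt_dvd (hpar k) hk)
  have h4 : Z.card ≤ 1 := by
    rw [card_le_one]
    intro x hx y hy
    obtain ⟨j, hj⟩ := hZ.back hx hy
    rw [← hj]
    clear hj
    induction j with
    | zero => rfl
    | succ j ih =>
      rw [Function.iterate_succ_apply, h3 x hx]
      exact ih
  omega

/-- **Circuits and size.** -/
theorem circuits_size (δ : ℝ) (hδ : 0 < δ) : ∃ κ : ℝ, 0 < κ ∧ ∀ Z : Finset ℤ, IsCycle Z →
    ∀ X : ℝ, 2 ≤ X → δ * Z.card ≤ (Z.filter fun x : ℤ => |(x : ℝ)| ≤ X).card →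
    κ * (Z.card * Real.log Z.card) ≤
      (Z.filter fun x => x % 2 = 0 ∧ T x % 2 = 1).card *
        (Real.log X * Real.log (2 + Real.log X / Real.log Z.card)) := by
  classical
  have hl2 : 0 < Real.log 2 := Real.log_pos (by norm_num)
  have hl2' : 0.69 < Real.log 2 := by have := Real.log_two_gt_d9; linarith
  have hl2'' : Real.log 2 < 0.7 := by have := Real.log_two_lt_d9; linarith
  -- threshold
  set P0 : ℝ := (4 / δ) ^ 2 + 2 with hP0
  have hP02 : 2 ≤ P0 := by rw [hP0]; have : 0 ≤ (4 / δ) ^ 2 := by positivity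
                           linarith
  have hlP0 : 0 < Real.log P0 := Real.log_pos (by linarith)
  set κ1 : ℝ := Real.log 2 * Real.log 2 / (P0 * Real.log P0) with hκ1
  set κ2 : ℝ := δ * Real.log 2 / 384 with hκ2
  have hκ10 : 0 < κ1 := by positivity
  have hκ20 : 0 < κ2 := by positivity
  refine ⟨min κ1 κ2, lt_min hκ10 hκ20, ?_⟩
  intro Z hZ X hX hlow
  obtain ⟨p, hp⟩ : ∃ p, p = Z.card := ⟨_, rfl⟩
  obtain ⟨c, hc⟩ : ∃ c, c = (Z.filter fun x => x % 2 = 0 ∧ T x % 2 = 1).card := ⟨_, rfl⟩
  have hp0 : 0 < p := by rw [hp]; exact hZ.card_pos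
  have hp1 : (1 : ℝ) ≤ p := by exact_mod_cast hp0
  rw [← hp, ← hc] 
  rw [← hp] at hlow
  have hlX : Real.log 2 ≤ Real.log X := Real.log_le_log (by norm_num) hX
  have hlp0 : 0 ≤ Real.log p := Real.log_nonneg hp1
  have hc0 : (0 : ℝ) ≤ c := Nat.cast_nonneg c
  have hL0 : 0 ≤ Real.log X / Real.log p := div_nonneg (by linarith) hlp0
  have hlog2L : Real.log 2 ≤ Real.log (2 + Real.log X / Real.log p) :=
    Real.log_le_log (by norm_num) (by linarith)
  rcases Nat.lt_or_ge 1 p with hp2 | hp2
  swap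
  · -- `p = 1`
    have : p = 1 := by omega
    rw [this]
    simp
    have h1 : 0 ≤ Real.log X := by linarith
    have h2 : 0 ≤ Real.log (2 + Real.log X / Real.log (p : ℝ)) := by linarith
    rw [this] at h2
    simp at h2
    positivity
  have hc1 : (1 : ℝ) ≤ c := by
    rw [hc]
    exact_mod_cast circuit_pos hZ (by omega)
  rcases le_or_gt (p : ℝ) P0 with hpP | hpP
  · -- short cycles
    have h1 : (p : ℝ) * Real.log p ≤ P0 * Real.log P0 :=
      mul_le_mul hpP (Real.log_le_log (by linarith) hpP) hlp0 (by linarith)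
    calc min κ1 κ2 * ((p : ℝ) * Real.log p) ≤ κ1 * (P0 * Real.log P0) :=
          mul_le_mul (min_le_left _ _) h1 (by positivity) hκ10.le
      _ = Real.log 2 * Real.log 2 := by rw [hκ1]; field_simp
      _ ≤ Real.log X * Real.log (2 + Real.log X / Real.log p) :=
          mul_le_mul hlX hlog2L hl2.le (by linarith)
      _ ≤ c * (Real.log X * Real.log (2 + Real.log X / Real.log p)) := by
          have : 0 ≤ Real.log X * Real.log (2 + Real.log X / Real.log p) :=
            mul_nonneg (by linarith) (by linarith)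
          nlinarith
  -- long cycles
  have hlp : 0 < Real.log p := Real.log_pos (by linarith)
  have hplog : Real.log p / 2 ≤ Real.log (δ * p / 4) := by
    have h1 : (4 / δ) ^ 2 ≤ p := by linarith
    have h2 : Real.log ((4 / δ) ^ 2) ≤ Real.log p := Real.log_le_log (by positivity) h1
    rw [Real.log_pow, Real.log_div (by norm_num) hδ.ne'] at h2
    rw [Real.log_div (by positivity) (by norm_num), Real.log_mul hδ.ne' (by positivity)]
    push_cast at h2
    linarith
  -- choose k
  have hX0 : 0 < X := by linarith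
  set m : ℕ := ⌊2 * X⌋₊ with hm
  set k : ℕ := Nat.log 2 m + 1 with hk
  have hm0 : m ≠ 0 := by
    have : 1 ≤ m := Nat.one_le_floor_iff _ |>.2 (by linarith)
    omega
  have hkup : 2 * X < 2 ^ k := by
    have h1 := Nat.lt_pow_succ_log_self (b := 2) (by norm_num) m
    have h2 : m + 1 ≤ 2 ^ k := h1
    have h3 : 2 * X < m + 1 := Nat.lt_floor_add_one _
    have h4 : ((m + 1 : ℕ) : ℝ) ≤ ((2 ^ k : ℕ) : ℝ) := by exact_mod_cast h2
    push_cast at h4
    linarith
  have hklow : (2 : ℝ) ^ k ≤ 8 * X := by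
    have h1 := Nat.pow_log_le_self 2 hm0
    have h3 : (m : ℝ) ≤ 2 * X := Nat.floor_le (by positivity)
    have h4 : ((2 ^ Nat.log 2 m : ℕ) : ℝ) ≤ (m : ℝ) := by exact_mod_cast h1
    push_cast at h4
    rw [hk, pow_succ]
    nlinarith
  have hkr : (0 : ℝ) < k := by
    have : 0 < k := Nat.succ_pos _
    exact_mod_cast this
  have hklog : (k : ℝ) * Real.log 2 ≤ 4 * Real.log X := by
    have h1 : (k : ℝ) * Real.log 2 ≤ Real.log (8 * X) := by
      rw [← Real.log_pow]
      exact Real.log_le_log (by positivity) hklow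
    rw [Real.log_mul (by norm_num) hX0.ne'] at h1
    have h2 : Real.log 8 = 3 * Real.log 2 := by
      rw [show (8 : ℝ) = 2 ^ 3 by norm_num, Real.log_pow]; norm_num
    linarith
  -- the elements with few changes
  set ch : ℤ → ℕ := fun x => ((range k).filter fun i => T^[i] x % 2 ≠ T^[i + 1] x % 2).card with hch
  set J : ℝ := 4 * c * k / (δ * p) with hJ
  have hJ0 : 0 < J := by positivity
  set Y := (Z.filter fun x : ℤ => |(x : ℝ)| ≤ X).filter fun x => (ch x : ℝ) ≤ J with hY
  have hsum : ∑ x ∈ Z, ch x = k * (2 * c) := by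
    have e1 : ∀ x, ch x = ∑ i ∈ range k, if T^[i] x % 2 ≠ T (T^[i] x) % 2 then 1 else 0 := by
      intro x
      rw [hch]
      simp only [card_filter, Function.iterate_succ_apply']
    simp_rw [e1]
    rw [sum_comm]
    have e2 : ∀ i ∈ range k, (∑ x ∈ Z, if T^[i] x % 2 ≠ T (T^[i] x) % 2 then 1 else 0) = 2 * c := by
      intro i _
      rw [hc, ← change_card hZ, card_filter]
      exact IsCycle.sum_iter hZ (fun x => if x % 2 ≠ T x % 2 then 1 else 0) i
    rw [sum_congr rfl e2, sum_const, card_range, smul_eq_mul]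
  set Bd := Z.filter fun x => ¬ ((ch x : ℝ) ≤ J) with hBd
  have h1 : (Bd.card : ℝ) * J ≤ ∑ x ∈ Z, (ch x : ℝ) := by
    calc (Bd.card : ℝ) * J = ∑ x ∈ Bd, J := by rw [sum_const, nsmul_eq_mul]
      _ ≤ ∑ x ∈ Bd, (ch x : ℝ) := by
          apply sum_le_sum
          intro x hx
          rw [hBd, mem_filter, not_le] at hx
          exact hx.2.le
      _ ≤ ∑ x ∈ Z, (ch x : ℝ) :=
          sum_le_sum_of_subset_of_nonneg (filter_subset _ _) (fun _ _ _ => by positivity)
  have h2 : ∑ x ∈ Z, (ch x : ℝ) = k * (2 * c) := by exact_mod_cast hsum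
  have hpr : (0 : ℝ) < p := by linarith
  have h3 : (Bd.card : ℝ) ≤ δ / 2 * p := by
    rw [h2] at h1
    have e : (k : ℝ) * (2 * c) = δ / 2 * p * J := by rw [hJ]; field_simp; ring
    rw [e] at h1
    exact le_of_mul_le_mul_right h1 hJ0
  have h4 : δ / 2 * p ≤ Y.card := by
    have h5 : Y.card + ((Z.filter fun x : ℤ => |(x : ℝ)| ≤ X).filter
        fun x => ¬ ((ch x : ℝ) ≤ J)).card = (Z.filter fun x : ℤ => |(x : ℝ)| ≤ X).card :=
      Finset.card_filter_add_card_filter_not _
    have h6 : ((Z.filter fun x : ℤ => |(x : ℝ)| ≤ X).filter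
        fun x => ¬ ((ch x : ℝ) ≤ J)).card ≤ Bd.card := by
      apply card_le_card
      intro x hx
      rw [mem_filter, mem_filter] at hx
      rw [hBd, mem_filter]
      exact ⟨hx.1.1, hx.2⟩
    have h5' : (Y.card : ℝ) + (((Z.filter fun x : ℤ => |(x : ℝ)| ≤ X).filter
        fun x => ¬ ((ch x : ℝ) ≤ J)).card : ℝ) = (Z.filter fun x : ℤ => |(x : ℝ)| ≤ X).card := by
      exact_mod_cast h5
    have h6' : (((Z.filter fun x : ℤ => |(x : ℝ)| ≤ X).filter
        fun x => ¬ ((ch x : ℝ) ≤ J)).card : ℝ) ≤ Bd.card := by exact_mod_cast h6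
    linarith
  have hinjY : ∀ x ∈ Y, ∀ y ∈ Y, (∀ t < k, T^[t] x % 2 = T^[t] y % 2) → x = y := by
    intro x hx y hy hxy
    rw [hY, mem_filter, mem_filter] at hx hy
    have hdvd := same_par k x y hxy
    have habs : |x - y| < 2 ^ k := by
      have h3 : |((x - y : ℤ) : ℝ)| < 2 ^ k := by
        push_cast
        refine lt_of_le_of_lt (abs_sub _ _) ?_
        linarith [hx.1.2, hy.1.2]
      exact_mod_cast h3
    have := Int.eq_zero_of_abs_lt_dvd hdvd habs
    omega
  -- the parameter L and the choice of s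
  set L : ℝ := Real.log X / Real.log p with hL
  have hcount : ∀ s : ℝ, 0 < s → s ≤ 1 →
      Real.log 2 / 8 ≤ L * (s + 4 * c / (δ * p) * Real.log (1 / s)) := by
    intro s hs0 hs1
    have h5 := count_changes Y J s hinjY (by
      intro x hx
      rw [hY, mem_filter] at hx
      exact hx.2) hs0 hs1
    have h6 : δ * p / 4 ≤ (1 / s) ^ J * (1 + s) ^ k := by linarith
    have h7 : Real.log (δ * p / 4) ≤ J * Real.log (1 / s) + k * s := by
      have h8 := Real.log_le_log (by positivity) h6
      rw [Real.log_mul (by positivity) (by positivity), Real.log_rpow (by positivity),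
        Real.log_pow] at h8
      have h9 : Real.log (1 + s) ≤ s := by
        have := Real.log_le_sub_one_of_pos (show 0 < 1 + s by linarith)
        linarith
      have h10 := mul_le_mul_of_nonneg_left h9 hkr.le
      linarith
    have h8 : Real.log p / 2 ≤ k * (s + 4 * c / (δ * p) * Real.log (1 / s)) := by
      refine (hplog.trans h7).trans (le_of_eq ?_)
      rw [hJ]; field_simp; ring
    have hB0 : 0 ≤ s + 4 * c / (δ * p) * Real.log (1 / s) := by
      have : 0 ≤ Real.log (1 / s) := Real.log_nonneg (by rw [le_div_iff₀ hs0]; linarith)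
      positivity
    have h9 : Real.log p / 2 * Real.log 2 ≤
        4 * Real.log X * (s + 4 * c / (δ * p) * Real.log (1 / s)) := by
      calc Real.log p / 2 * Real.log 2 ≤
            k * (s + 4 * c / (δ * p) * Real.log (1 / s)) * Real.log 2 :=
            mul_le_mul_of_nonneg_right h8 hl2.le
        _ = (k * Real.log 2) * (s + 4 * c / (δ * p) * Real.log (1 / s)) := by ring
        _ ≤ _ := mul_le_mul_of_nonneg_right hklog hB0
    rw [hL, div_mul_eq_mul_div, le_div_iff₀ hlp]
    linarith
  have hL8 : Real.log 2 / 8 ≤ L := by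
    have h5 := hcount 1 one_pos le_rfl
    simpa using h5
  have hL0' : 0 < L := by have : 0 < Real.log 2 / 8 := by positivity
                          linarith
  set s : ℝ := Real.log 2 / (16 * L) with hs
  have hs0 : 0 < s := by positivity
  have hs1 : s ≤ 1 := by
    rw [hs, div_le_one (by positivity)]
    linarith
  have h5 := hcount s hs0 hs1
  have hLs : L * s = Real.log 2 / 16 := by rw [hs]; field_simp
  have h6 : Real.log (1 / s) ≤ 6 * Real.log (2 + L) := by
    have h7 : 1 / s ≤ 2 ^ 5 * (2 + L) := by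
      rw [hs, one_div_div, div_le_iff₀ hl2]
      nlinarith
    have h8 := Real.log_le_log (by positivity) h7
    rw [Real.log_mul (by norm_num) (by positivity), Real.log_pow] at h8
    push_cast at h8
    linarith
  have h7 : Real.log 2 / 16 ≤ L * (4 * c / (δ * p) * (6 * Real.log (2 + L))) := by
    have h8 : L * (4 * c / (δ * p) * Real.log (1 / s)) ≤
        L * (4 * c / (δ * p) * (6 * Real.log (2 + L))) :=
      mul_le_mul_of_nonneg_left (mul_le_mul_of_nonneg_left h6 (by positivity)) hL0'.le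
    have h9 : L * (s + 4 * c / (δ * p) * Real.log (1 / s)) =
        L * s + L * (4 * c / (δ * p) * Real.log (1 / s)) := by ring
    rw [h9, hLs] at h5
    linarith
  have h8 : κ2 * (p * Real.log p) ≤ c * (Real.log X * Real.log (2 + L)) := by
    have e1 : L * Real.log p = Real.log X := by rw [hL]; field_simp
    have h9 : Real.log 2 / 16 * (δ * p * Real.log p / 24) ≤
        L * (4 * c / (δ * p) * (6 * Real.log (2 + L))) * (δ * p * Real.log p / 24) :=
      mul_le_mul_of_nonneg_right h7 (by positivity)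
    calc κ2 * (p * Real.log p) = Real.log 2 / 16 * (δ * p * Real.log p / 24) := by
          rw [hκ2]; ring
      _ ≤ L * (4 * c / (δ * p) * (6 * Real.log (2 + L))) * (δ * p * Real.log p / 24) := h9
      _ = c * ((L * Real.log p) * Real.log (2 + L)) := by field_simp; ring
      _ = c * (Real.log X * Real.log (2 + L)) := by rw [e1]
  refine le_trans (mul_le_mul_of_nonneg_right (min_le_right _ _) (by positivity)) h8

end Pool.Agent.W5h23
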