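import Mathlib
import Pool.Agent.H547R3.Osc2
import Pool.Agent.W5h23.Entropy2

set_option autoImplicit false

/-!
Cycles of the 3x+1 map most elements of which lie in a window `[y, B y]`: coding.
-/

namespace Pool.Agent.W5h23

open Finset Pool.Agent.H319R2 Pool.Agent.H547R3

/-- the sum of `2 ^ |B|` over the small subsets -/
theorem sum_small_subsets (k : ℕ) (J s : ℝ) (hs0 : 0 < s) (hs1 : s ≤ 1) :
    ∑ B ∈ (range k).powerset.filter (fun B => (B.card : ℝ) ≤ J), (2 : ℝ) ^ B.card ≤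
      (2 / s) ^ J * (1 + s) ^ k := by
  classical
  have hbase : (1 : ℝ) ≤ 2 / s := by rw [le_div_iff₀ hs0]; linarith
  have h1 : ∀ B ∈ (range k).powerset.filter (fun B => (B.card : ℝ) ≤ J),
      (2 : ℝ) ^ B.card ≤ (2 / s) ^ J * s ^ B.card := by
    intro B hB
    rw [mem_filter] at hB
    have e2 : (2 : ℝ) ^ B.card = (2 / s) ^ ((B.card : ℕ) : ℝ) * s ^ B.card := by
      rw [Real.rpow_natCast, ← mul_pow]
      congr 1
      field_simp
    rw [e2]
    exact mul_le_mul_of_nonneg_right (Real.rpow_le_rpow_of_exponent_le hbase hB.2) (by positivity)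
  calc ∑ B ∈ (range k).powerset.filter (fun B => (B.card : ℝ) ≤ J), (2 : ℝ) ^ B.card
      ≤ ∑ B ∈ (range k).powerset.filter (fun B => (B.card : ℝ) ≤ J), (2 / s) ^ J * s ^ B.card :=
        sum_le_sum h1
    _ ≤ ∑ B ∈ (range k).powerset, (2 / s) ^ J * s ^ B.card := by
        apply sum_le_sum_of_subset_of_nonneg (filter_subset _ _)
        intro B _ _
        positivity
    _ = (2 / s) ^ J * (1 + s) ^ k := by
        rw [← mul_sum]
        congr 1
        have h2 := Finset.prod_add (fun _ : ℕ => s) (fun _ : ℕ => (1 : ℝ)) (range k)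
        simp only [prod_const, one_pow, mul_one, card_range] at h2
        rw [← h2, add_comm]

/-- **Coding.** The elements of a window whose orbits are mostly in the window. -/
theorem window_card_robust {B τ : ℝ} (hB : 3 ≤ B) (hτ : 0 < τ) {N : ℝ} (hN : 1 ≤ N) {k : ℕ}
    (hk : 2 * (B * N) < 2 ^ k) (hNτ : 1 / (2 * N) ≤ τ)
    {Y : Finset ℤ} (hY : ∀ x ∈ Y, N ≤ |(x : ℝ)| ∧ |(x : ℝ)| ≤ B * N)
    (hpos : ∀ x ∈ Y, ∀ i ≤ k, |Real.log |((T^[i] x : ℤ) : ℝ)| - Real.log |(x : ℝ)| +
      i * Real.log 2 - od i x * Real.log 3| ≤ τ) (K : ℕ)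
    (hK : ∀ m, (V (Real.log B - Real.log 3) τ k m).card ≤ K) (J s : ℝ) (hs0 : 0 < s) (hs1 : s ≤ 1)
    (hbad : ∀ x ∈ Y, (((range k).filter fun i => ¬ ((N ≤ |((T^[i + 1] x : ℤ) : ℝ)|) ∧
      |((T^[i + 1] x : ℤ) : ℝ)| ≤ B * N)).card : ℝ) ≤ J) :
    (Y.card : ℝ) ≤ (⌊Real.log B / τ⌋₊ + 1) * 2 ^ K * ((2 / s) ^ J * (1 + s) ^ k) := by
  classical
  have hN0 : 0 < N := by linarith
  have hB0 : 0 < B := by linarith
  have hBN : 0 < B * N := by positivity
  set δ : ℝ := Real.log B - Real.log 3 with hδ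
  have hlogB : Real.log (B * N) = Real.log B + Real.log N := Real.log_mul hB0.ne' hN0.ne'
  -- the bucket of an element
  obtain ⟨b, hb⟩ : ∃ b : ℤ → ℕ, ∀ x, b x = ⌊(Real.log |(x : ℝ)| - Real.log N) / τ⌋₊ :=
    ⟨_, fun x => rfl⟩
  have hlog : ∀ x ∈ Y, Real.log N ≤ Real.log |(x : ℝ)| ∧ Real.log |(x : ℝ)| ≤ Real.log B + Real.log N := by
    intro x hx
    obtain ⟨h1, h2⟩ := hY x hx
    refine ⟨Real.log_le_log hN0 h1, ?_⟩
    rw [← hlogB]
    exact Real.log_le_log (by linarith) h2
  have hb1 : ∀ x ∈ Y, (b x : ℝ) * τ ≤ Real.log |(x : ℝ)| - Real.log N ∧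
      Real.log |(x : ℝ)| - Real.log N ≤ (b x : ℝ) * τ + τ := by
    intro x hx
    have h0 : 0 ≤ (Real.log |(x : ℝ)| - Real.log N) / τ := by
      apply div_nonneg _ hτ.le
      linarith [(hlog x hx).1]
    have h1 := Nat.floor_le h0
    have h2 := Nat.lt_floor_add_one ((Real.log |(x : ℝ)| - Real.log N) / τ)
    rw [le_div_iff₀ hτ] at h1
    rw [div_lt_iff₀ hτ] at h2
    rw [hb]
    exact ⟨h1, by linarith⟩
  have hbR : ∀ x ∈ Y, b x ∈ range (⌊Real.log B / τ⌋₊ + 1) := by
    intro x hx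
    rw [mem_range, hb]
    apply Nat.lt_succ_of_le
    apply Nat.floor_le_floor
    apply div_le_div_of_nonneg_right _ hτ.le
    linarith [(hlog x hx).2]
  -- the bad times
  obtain ⟨bd, hbd⟩ : ∃ bd : ℤ → Finset ℕ, ∀ x, bd x = (range k).filter fun i =>
      ¬ ((N ≤ |((T^[i + 1] x : ℤ) : ℝ)|) ∧ |((T^[i + 1] x : ℤ) : ℝ)| ≤ B * N) :=
    ⟨_, fun x => rfl⟩
  have hgood : ∀ x, ∀ i < k, i ∉ bd x → (N ≤ |((T^[i + 1] x : ℤ) : ℝ)|) ∧
      |((T^[i + 1] x : ℤ) : ℝ)| ≤ B * N := by
    intro x i hi hib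
    by_contra hcon
    apply hib
    rw [hbd, mem_filter, mem_range]
    exact ⟨hi, hcon⟩
  -- the key claim
  have key : ∀ x ∈ Y, ∀ y ∈ Y, b x = b y → bd x = bd y →
      (∀ i ∈ bd x, (T^[i] x) % 2 = 1 ↔ (T^[i] y) % 2 = 1) →
      (∀ i ∈ V δ τ k (b x), (T^[i] x) % 2 = 1 ↔ (T^[i] y) % 2 = 1) →
      ∀ i < k, (T^[i] x) % 2 = (T^[i] y) % 2 := by
    -- one-sided version
    have one : ∀ x ∈ Y, ∀ y ∈ Y, b x = b y → bd x = bd y →
        ∀ i < k, i ∉ bd x → (∀ j < i, (T^[j] x) % 2 = (T^[j] y) % 2) → (T^[i] x) % 2 = 1 →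
          (T^[i] y) % 2 = 0 → i ∈ V δ τ k (b x) := by
      intro x hx y hy hbxy hbdxy i hik hib hj hox hey
      rw [mem_V]
      refine ⟨hik, (od i x : ℤ), ?_⟩
      have hod := od_congr hj
      have h1 := hpos x hx i hik.le
      have h2 := hpos y hy i hik.le
      rw [← hod] at h2
      have h3 := hb1 x hx
      have h4 := hb1 y hy
      rw [← hbxy] at h4
      have hTx : |((T (T^[i] x) : ℤ) : ℝ)| ≤ B * N := by
        have := (hgood x i hik hib).2
        rwa [Function.iterate_succ_apply'] at this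
      have hTy : N ≤ |((T (T^[i] y) : ℤ) : ℝ)| := by
        have := (hgood y i hik (hbdxy ▸ hib)).1
        rwa [Function.iterate_succ_apply'] at this
      have hMτ : 1 / (2 * (B * N)) ≤ τ := by
        refine le_trans (one_div_le_one_div_of_le (by positivity) ?_) hNτ
        nlinarith
      have h5 := odd_upper hτ hMτ hBN hox hTx
      have h6 := even_lower hN0 hey hTy
      rw [hlogB] at h5
      rw [abs_le] at h1 h2 ⊢
      push_cast
      constructor
      · linarith [h1.1, h1.2, h2.1, h2.2, h3.1, h3.2, h4.1, h4.2]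
      · linarith [h1.1, h1.2, h2.1, h2.2, h3.1, h3.2, h4.1, h4.2]
    intro x hx y hy hbxy hbdxy hB' hV i
    induction i using Nat.strong_induction_on with
    | _ i ih =>
      intro hik
      have hj : ∀ j < i, (T^[j] x) % 2 = (T^[j] y) % 2 := fun j hji => ih j hji (by omega)
      rcases par (T^[i] x) with h1 | h1 <;> rcases par (T^[i] y) with h2 | h2
      · rw [h1, h2]
      · exfalso
        by_cases hib : i ∈ bd x
        · have := (hB' i hib).2 h2
          omega
        · have := one y hy x hx hbxy.symm hbdxy.symm i hik (hbdxy ▸ hib)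
            (fun j hji => (hj j hji).symm) h2 h1
          rw [← hbxy] at this
          have := (hV i this).2 h2
          omega
      · exfalso
        by_cases hib : i ∈ bd x
        · have := (hB' i hib).1 h1
          omega
        · have := one x hx y hy hbxy hbdxy i hik hib hj h1 h2
          have := (hV i this).1 h1
          omega
      · rw [h1, h2]
  -- injectivity of the code
  obtain ⟨code, hcode⟩ : ∃ code : ℤ → (Σ _ : ℕ, (Finset ℕ × (Σ _ : Finset ℕ, Finset ℕ))),
      ∀ x, code x = ⟨b x, ((V δ τ k (b x)).filter fun i => (T^[i] x) % 2 = 1,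
        ⟨bd x, (bd x).filter fun i => (T^[i] x) % 2 = 1⟩)⟩ := ⟨_, fun x => rfl⟩
  have hinj : Set.InjOn code Y := by
    intro x hx y hy hxy
    rw [hcode, hcode] at hxy
    have hbxy : b x = b y := congrArg Sigma.fst hxy
    have hf := eq_of_heq (Sigma.mk.inj hxy).2
    have hf1 : ((V δ τ k (b x)).filter fun i => (T^[i] x) % 2 = 1) =
        ((V δ τ k (b y)).filter fun i => (T^[i] y) % 2 = 1) := congrArg Prod.fst hf
    have hf4 := congrArg Prod.snd hf
    have hf2 : bd x = bd y := congrArg Sigma.fst hf4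
    have hf3 : ((bd x).filter fun i => (T^[i] x) % 2 = 1) =
        ((bd y).filter fun i => (T^[i] y) % 2 = 1) := eq_of_heq (Sigma.mk.inj hf4).2
    have hpar := key x hx y hy hbxy hf2 (by
      intro i hi
      have h1 : i ∈ ((bd x).filter fun i => (T^[i] x) % 2 = 1) ↔
          i ∈ ((bd y).filter fun i => (T^[i] y) % 2 = 1) := by rw [hf3]
      rw [mem_filter, mem_filter, ← hf2] at h1
      tauto) (by
      intro i hi
      have h1 : i ∈ ((V δ τ k (b x)).filter fun i => (T^[i] x) % 2 = 1) ↔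
          i ∈ ((V δ τ k (b y)).filter fun i => (T^[i] y) % 2 = 1) := by rw [hf1]
      rw [mem_filter, mem_filter, ← hbxy] at h1
      tauto)
    have hdvd := same_par k x y hpar
    have habs : |x - y| < 2 ^ k := by
      have h1 := (hY x hx).2
      have h2 := (hY y hy).2
      have h3 : |((x - y : ℤ) : ℝ)| < 2 ^ k := by
        push_cast
        refine lt_of_le_of_lt (abs_sub _ _) ?_
        linarith
      exact_mod_cast h3
    have := Int.eq_zero_of_abs_lt_dvd hdvd habs
    omega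
  set Sm := (range k).powerset.filter (fun B => (B.card : ℝ) ≤ J) with hSm
  have hmem : ∀ x ∈ Y, code x ∈ (range (⌊Real.log B / τ⌋₊ + 1)).sigma fun m =>
      (V δ τ k m).powerset ×ˢ (Sm.sigma fun B => B.powerset) := by
    intro x hx
    rw [mem_sigma]
    refine ⟨by rw [hcode]; exact hbR x hx, ?_⟩
    rw [hcode, mem_product, mem_sigma, mem_powerset, mem_powerset]
    refine ⟨filter_subset _ _, ?_, filter_subset _ _⟩
    rw [hSm, mem_filter, mem_powerset]
    show bd x ⊆ range k ∧ (((bd x).card : ℕ) : ℝ) ≤ J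
    rw [hbd]
    exact ⟨filter_subset _ _, hbad x hx⟩
  have h1 := card_le_card_of_injOn code hmem hinj
  have h1' : (Y.card : ℝ) ≤ (((range (⌊Real.log B / τ⌋₊ + 1)).sigma fun m =>
      (V δ τ k m).powerset ×ˢ (Sm.sigma fun B => B.powerset)).card : ℝ) := by exact_mod_cast h1
  refine h1'.trans ?_
  rw [card_sigma]
  push_cast
  calc ∑ m ∈ range (⌊Real.log B / τ⌋₊ + 1),
        (((V δ τ k m).powerset ×ˢ (Sm.sigma fun B => B.powerset)).card : ℝ)
      ≤ ∑ m ∈ range (⌊Real.log B / τ⌋₊ + 1), (2 : ℝ) ^ K * ((2 / s) ^ J * (1 + s) ^ k) := by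
        apply sum_le_sum
        intro m _
        have e1 : (((V δ τ k m).powerset.card : ℕ) : ℝ) ≤ (2 : ℝ) ^ K := by
          rw [card_powerset]
          push_cast
          exact pow_le_pow_right₀ (by norm_num) (hK m)
        have e2 : (((Sm.sigma fun B => B.powerset).card : ℕ) : ℝ) ≤ (2 / s) ^ J * (1 + s) ^ k := by
          refine le_trans (le_of_eq ?_) (sum_small_subsets k J s hs0 hs1)
          rw [card_sigma, Nat.cast_sum]
          apply sum_congr rfl
          intro B _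
          rw [card_powerset, Nat.cast_pow, Nat.cast_ofNat]
        rw [card_product, Nat.cast_mul]
        exact mul_le_mul e1 e2 (Nat.cast_nonneg _) (pow_nonneg (by norm_num) K)
    _ = (⌊Real.log B / τ⌋₊ + 1) * 2 ^ K * ((2 / s) ^ J * (1 + s) ^ k) := by
        rw [sum_const, card_range, nsmul_eq_mul]
        push_cast
        ring

end Pool.Agent.W5h23
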