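import Mathlib
import Pool.Agent.H547R3.Osc3
import Pool.Agent.W5h23.Robust
import Pool.Agent.W5h23.Entropy3

set_option autoImplicit false

/-!
Cycles of the 3x+1 map most elements of which lie in a window `[y, B y]`.
-/

namespace Pool.Agent.W5h23

open Finset Pool.Agent.H319R2 Pool.Agent.H547R3 Filter

theorem IsCycle.injOn_iter {Z : Finset ℤ} (hZ : IsCycle Z) {x : ℤ} (hx : x ∈ Z) :
    Set.InjOn (fun i => T^[i] x) (Set.Iio Z.card) := by
  obtain ⟨x0, hx0Z, hpos, hset, hcard, hodd, hinj0⟩ := hZ.normal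
  obtain ⟨j, hj⟩ := hZ.back hx0Z hx
  have hm : Function.minimalPeriod T x = Z.card := by
    rw [← hj, Function.minimalPeriod_apply_iterate (hZ.periodic hx0Z) j, hcard]
  rw [← hm]
  exact Function.iterate_injOn_Iio_minimalPeriod

/-- most elements stay in the window most of the time -/
theorem few_exits {Z : Finset ℤ} (hZ : IsCycle Z) (G : ℤ → Prop) [DecidablePred G] {k : ℕ}
    (hk : 0 < k) {τ θ : ℝ} (hθ : 0 < θ) (hτ1 : τ ≤ 1 / 4) (hτ2 : τ ≤ θ / 8)
    (hU : ((Z.filter fun x => ¬ G x).card : ℝ) ≤ τ * Z.card) :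
    (Z.card : ℝ) ≤ 2 * ((Z.filter fun x => G x ∧
      (((range k).filter fun i => ¬ G (T^[i + 1] x)).card : ℝ) ≤ θ * k).card : ℝ) := by
  classical
  set bad : ℤ → ℕ := fun x => ((range k).filter fun i => ¬ G (T^[i + 1] x)).card with hbad
  have hKr : (0 : ℝ) < k := by exact_mod_cast hk
  have hsum : ∑ x ∈ Z, bad x = k * (Z.filter fun x => ¬ G x).card := by
    have e1 : ∀ x, bad x = ∑ i ∈ range k, if ¬ G (T^[i + 1] x) then 1 else 0 := by
      intro x
      rw [hbad]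
      exact card_filter _ _
    simp_rw [e1]
    rw [sum_comm]
    have e2 : ∀ i ∈ range k, (∑ x ∈ Z, if ¬ G (T^[i + 1] x) then 1 else 0) =
        (Z.filter fun x => ¬ G x).card := by
      intro i _
      rw [card_filter]
      exact IsCycle.sum_iter hZ (fun x => if ¬ G x then 1 else 0) (i + 1)
    rw [sum_congr rfl e2, sum_const, card_range, smul_eq_mul]
  set Bd := Z.filter fun x => ¬ ((bad x : ℝ) ≤ θ * k) with hBd
  have h1 : (Bd.card : ℝ) * (θ * k) ≤ ∑ x ∈ Z, (bad x : ℝ) := by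
    calc (Bd.card : ℝ) * (θ * k) = ∑ x ∈ Bd, (θ * k) := by rw [sum_const, nsmul_eq_mul]
      _ ≤ ∑ x ∈ Bd, (bad x : ℝ) := by
          apply sum_le_sum
          intro x hx
          rw [hBd, mem_filter, not_le] at hx
          exact hx.2.le
      _ ≤ ∑ x ∈ Z, (bad x : ℝ) :=
          sum_le_sum_of_subset_of_nonneg (filter_subset _ _) (fun _ _ _ => by positivity)
  have h2 : ∑ x ∈ Z, (bad x : ℝ) ≤ k * (τ * Z.card) := by
    have : ((∑ x ∈ Z, bad x : ℕ) : ℝ) = k * ((Z.filter fun x => ¬ G x).card : ℝ) := by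
      rw [hsum]; push_cast; ring
    push_cast at this
    rw [this]
    exact mul_le_mul_of_nonneg_left hU hKr.le
  have h3 : (Bd.card : ℝ) ≤ 1 / 8 * Z.card := by
    have h4 : (Bd.card : ℝ) * (θ * k) ≤ (1 / 8 * Z.card) * (θ * k) := by
      refine (h1.trans h2).trans ?_
      have : τ * Z.card ≤ θ / 8 * Z.card := mul_le_mul_of_nonneg_right hτ2 (by positivity)
      nlinarith
    exact le_of_mul_le_mul_right h4 (by positivity)
  have h5 : Z ⊆ (Z.filter fun x => G x ∧ (bad x : ℝ) ≤ θ * k) ∪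
      ((Z.filter fun x => ¬ G x) ∪ Bd) := by
    intro x hx
    rw [mem_union, mem_union, mem_filter, mem_filter, hBd, mem_filter]
    by_cases h : G x
    · by_cases h' : (bad x : ℝ) ≤ θ * k
      · exact Or.inl ⟨hx, h, h'⟩
      · exact Or.inr (Or.inr ⟨hx, h'⟩)
    · exact Or.inr (Or.inl ⟨hx, h⟩)
  have h6 : Z.card ≤ (Z.filter fun x => G x ∧ (bad x : ℝ) ≤ θ * k).card +
      ((Z.filter fun x => ¬ G x).card + Bd.card) :=
    (card_le_card h5).trans ((card_union_le _ _).trans (Nat.add_le_add_left (card_union_le _ _) _))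
  have h6' : (Z.card : ℝ) ≤ ((Z.filter fun x => G x ∧ (bad x : ℝ) ≤ θ * k).card : ℝ) +
      (((Z.filter fun x => ¬ G x).card : ℝ) + Bd.card) := by exact_mod_cast h6
  have h7 : τ * (Z.card : ℝ) ≤ 1 / 4 * Z.card := mul_le_mul_of_nonneg_right hτ1 (by positivity)
  linarith

/-- cycles with a small element are short -/
theorem card_of_small (M : ℝ) : ∃ P : ℝ, 0 ≤ P ∧ ∀ Z : Finset ℤ, IsCycle Z →
    (∃ x ∈ Z, |(x : ℝ)| ≤ M) → (Z.card : ℝ) ≤ P := by
  have h1 := (finite_small M).image (fun Z : Finset ℤ => (Z.card : ℝ))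
  obtain ⟨P, hP⟩ := h1.bddAbove
  refine ⟨max P 0, le_max_right _ _, ?_⟩
  intro Z hZ hx
  exact (hP ⟨Z, ⟨hZ, hx⟩, rfl⟩).trans (le_max_left _ _)

/-- **Windows.** -/
theorem robust_window (B γ : ℝ) (hB3 : 3 ≤ B) (hγt : Real.log B / Real.log 3 - 1 < γ) :
    ∃ τ C : ℝ, 0 < τ ∧ 0 < C ∧ ∀ Z : Finset ℤ, IsCycle Z → ∀ y : ℝ, 1 ≤ y →
      ((Z.filter fun x : ℤ => ¬ (y ≤ |(x : ℝ)| ∧ |(x : ℝ)| ≤ B * y)).card : ℝ) ≤ τ * Z.card →
      (Z.card : ℝ) ≤ C * y ^ γ := by
  classical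
  have hl2 : 0 < Real.log 2 := Real.log_pos (by norm_num)
  have hl3 : 0 < Real.log 3 := Real.log_pos (by norm_num)
  have hB0 : 0 < B := by linarith
  set δ : ℝ := Real.log B - Real.log 3 with hδ
  have hδ0 : 0 ≤ δ := by
    have := Real.log_le_log (by norm_num : (0 : ℝ) < 3) hB3
    rw [hδ]; linarith
  set ε : ℝ := γ - δ / Real.log 3 with hε
  have hε0 : 0 < ε := by
    rw [hε, sub_pos, hδ, sub_div, div_self hl3.ne']; exact hγt
  have hγ0 : 0 < γ := by
    have : 0 ≤ δ / Real.log 3 := by positivity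
    rw [hε] at hε0; linarith
  set σ : ℝ := ε * Real.log 3 / 16 with hσdef
  have hσ : 0 < σ := by positivity
  obtain ⟨q, h, hq, hQ, hcop, hα⟩ := exists_approx (12 / ε)
  have hqr : (0 : ℝ) < q := by exact_mod_cast hq
  set r : ℝ := (δ / 2 + 2 * σ) / Real.log 3 with hr
  have hr0 : 0 < r := by positivity
  have h2r : 2 * r = δ / Real.log 3 + ε / 4 := by
    rw [hr, hσdef]; field_simp; ring
  have h3q : 3 / (q : ℝ) ≤ ε / 4 := by
    rw [div_le_iff₀ hε0] at hQ
    rw [div_le_iff₀ hqr]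
    linarith
  set γ1 : ℝ := 2 * r + 3 / q with hγ1
  have hγ10 : 0 < γ1 := by positivity
  have hγ1le : γ1 + ε / 2 ≤ γ := by
    rw [hγ1, h2r]
    have : δ / Real.log 3 = γ - ε := by rw [hε]; ring
    linarith
  set c0 : ℝ := 2 * r * q + 3 with hc0
  have hc00 : 0 < c0 := by positivity
  obtain ⟨s, θ, hs0, hs1, hθ, hexp⟩ := exponent_bound (half_pos hε0)
  set τ : ℝ := min (1 / 4) (θ / 8) with hτ
  have hτ0 : 0 < τ := lt_min (by norm_num) (by positivity)
  -- the error terms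
  obtain ⟨Cr, hCr0, hCr⟩ := rigid 0.951 beta_lt (by norm_num)
  obtain ⟨N0, hN0⟩ : ∃ N0 : ℝ, ∀ N : ℝ, N0 ≤ N → 1 ≤ N ∧ Cr * N ^ ((0.951 : ℝ) - 1) ≤ σ := by
    have h1 : Tendsto (fun N : ℝ => Cr * N ^ ((0.951 : ℝ) - 1)) atTop (nhds (Cr * 0)) := by
      apply Tendsto.const_mul
      have := tendsto_rpow_neg_atTop (show (0 : ℝ) < 0.049 by norm_num)
      refine this.congr ?_
      intro N
      norm_num
    rw [mul_zero] at h1
    have h2 := h1.eventually (gt_mem_nhds hσ)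
    have h3 := (h2.and (eventually_ge_atTop (1 : ℝ))).exists_forall_of_atTop
    obtain ⟨N0, hN0⟩ := h3
    exact ⟨N0, fun N hN => ⟨(hN0 N hN).2, (hN0 N hN).1.le⟩⟩
  obtain ⟨P1, hP10, hP1⟩ := card_of_small N0
  set A1 : ℝ := 2 * ((⌊Real.log B / σ⌋₊ + 1) * 2 ^ c0 * (8 * B) ^ γ) with hA1
  set A2 : ℝ := 2 * (B / σ + 1) with hA2
  set A3 : ℝ := (|Real.log (8 * B)| + 1 / γ) / Real.log 2 with hA3
  have hA10 : 0 < A1 := by positivity
  have hA20 : 0 < A2 := by positivity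
  have hA30 : 0 < A3 := by positivity
  refine ⟨τ, P1 + A1 + A2 + A3, hτ0, by positivity, ?_⟩
  intro Z hZ y hy hout
  have hy0 : 0 < y := by linarith
  have hyγ : 1 ≤ y ^ γ := Real.one_le_rpow hy hγ0.le
  have hfin : ∀ a : ℝ, a ≤ P1 + A1 + A2 + A3 → (Z.card : ℝ) ≤ a * y ^ γ →
      (Z.card : ℝ) ≤ (P1 + A1 + A2 + A3) * y ^ γ := by
    intro a ha h
    exact h.trans (mul_le_mul_of_nonneg_right ha (by positivity))
  by_cases hsmall : ∃ x ∈ Z, |(x : ℝ)| ≤ N0
  · apply hfin P1 (by linarith)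
    have := hP1 Z hZ hsmall
    nlinarith
  push Not at hsmall
  set G : ℤ → Prop := fun x => y ≤ |(x : ℝ)| ∧ |(x : ℝ)| ≤ B * y with hG
  by_cases hyσ : y < 1 / (2 * σ)
  · apply hfin A2 (by linarith)
    -- few integers in the window
    have h1 : Z.filter (fun x => G x) ⊆ Finset.Icc (-⌊B * y⌋) ⌊B * y⌋ := by
      intro x hx
      rw [mem_filter] at hx
      rw [mem_Icc, ← abs_le, Int.le_floor]
      push_cast
      exact hx.2.2
    have h2 := card_le_card h1
    rw [Int.card_Icc] at h2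
    have h3 : 0 ≤ ⌊B * y⌋ := Int.floor_nonneg.2 (by positivity)
    have h4 : ((⌊B * y⌋ + 1 - -⌊B * y⌋).toNat : ℝ) = 2 * (⌊B * y⌋ : ℝ) + 1 := by
      have : (((⌊B * y⌋ + 1 - -⌊B * y⌋).toNat : ℤ)) = 2 * ⌊B * y⌋ + 1 := by
        rw [Int.toNat_of_nonneg (by omega)]; ring
      exact_mod_cast this
    have h5 : ((Z.filter fun x => G x).card : ℝ) ≤ 2 * (B * y) + 1 := by
      have h6 : ((Z.filter fun x => G x).card : ℝ) ≤ ((⌊B * y⌋ + 1 - -⌊B * y⌋).toNat : ℝ) := by
        exact_mod_cast h2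
      rw [h4] at h6
      have := Int.floor_le (B * y)
      linarith
    have h7 : (Z.filter fun x => G x).card + (Z.filter fun x => ¬ G x).card = Z.card :=
      Finset.card_filter_add_card_filter_not _
    have h7' : ((Z.filter fun x => G x).card : ℝ) + ((Z.filter fun x => ¬ G x).card : ℝ) = Z.card := by
      exact_mod_cast h7
    have h8 : τ * (Z.card : ℝ) ≤ 1 / 4 * Z.card :=
      mul_le_mul_of_nonneg_right (min_le_left _ _) (by positivity)
    have h9 : B * y ≤ B / σ / 2 := by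
      have : y ≤ 1 / (2 * σ) := hyσ.le
      calc B * y ≤ B * (1 / (2 * σ)) := mul_le_mul_of_nonneg_left this hB0.le
        _ = B / σ / 2 := by field_simp
    have h10 : (Z.card : ℝ) ≤ A2 := by
      have hout' : ((Z.filter fun x => ¬ G x).card : ℝ) ≤ τ * Z.card := hout
      have : 0 < B / σ := by positivity
      rw [hA2]
      linarith
    nlinarith
  push Not at hyσ
  have hyσ' : 1 / (2 * y) ≤ σ := by
    rw [div_le_iff₀ (by positivity)] at hyσ ⊢
    linarith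
  -- choose k
  set m : ℕ := ⌊2 * (B * y)⌋₊ with hm
  set k : ℕ := Nat.log 2 m + 1 with hk
  have hBN : 1 ≤ 2 * (B * y) := by nlinarith
  have hm0 : m ≠ 0 := by
    have : 1 ≤ m := Nat.one_le_floor_iff _ |>.2 hBN
    omega
  have hkup : 2 * (B * y) < 2 ^ k := by
    have h1 := Nat.lt_pow_succ_log_self (b := 2) (by norm_num) m
    have h2 : m + 1 ≤ 2 ^ k := h1
    have h3 : 2 * (B * y) < m + 1 := Nat.lt_floor_add_one _
    have h4 : ((m + 1 : ℕ) : ℝ) ≤ ((2 ^ k : ℕ) : ℝ) := by exact_mod_cast h2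
    push_cast at h4
    linarith
  have hklow : (2 : ℝ) ^ k ≤ 8 * B * y := by
    have h1 := Nat.pow_log_le_self 2 hm0
    have h3 : (m : ℝ) ≤ 2 * (B * y) := Nat.floor_le (by positivity)
    have h4 : ((2 ^ Nat.log 2 m : ℕ) : ℝ) ≤ (m : ℝ) := by exact_mod_cast h1
    push_cast at h4
    rw [hk, pow_succ]
    nlinarith
  by_cases hkZ : Z.card < k
  · apply hfin A3 (by linarith)
    have h1 : (k : ℝ) * Real.log 2 ≤ Real.log (8 * B) + Real.log y := by
      rw [← Real.log_pow, ← Real.log_mul (by positivity) hy0.ne']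
      exact Real.log_le_log (by positivity) hklow
    have h2 : Real.log y ≤ y ^ γ / γ := Real.log_le_rpow_div hy0.le hγ0
    have h3 : (Z.card : ℝ) ≤ k := by exact_mod_cast hkZ.le
    have h4 : Real.log (8 * B) ≤ |Real.log (8 * B)| * y ^ γ := by
      have := le_abs_self (Real.log (8 * B))
      have h5 := abs_nonneg (Real.log (8 * B))
      nlinarith
    rw [hA3, div_mul_eq_mul_div, le_div_iff₀ hl2]
    calc (Z.card : ℝ) * Real.log 2 ≤ k * Real.log 2 := mul_le_mul_of_nonneg_right h3 hl2.le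
      _ ≤ |Real.log (8 * B)| * y ^ γ + y ^ γ / γ := by linarith
      _ = (|Real.log (8 * B)| + 1 / γ) * y ^ γ := by ring
  push Not at hkZ
  apply hfin A1 (by linarith)
  -- the least element
  obtain ⟨x0, hx0, hmin⟩ := exists_min_image Z (fun x => |(x : ℝ)|) (card_pos.1 hZ.card_pos)
  have hx0N := hN0 _ (hsmall x0 hx0).le
  have hne : ∀ x ∈ Z, x ≠ 0 := by
    intro x hx h
    have h1 := hmin x hx
    rw [h] at h1
    simp at h1
    have h2 := hx0N.1
    rw [h1] at h2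
    simp at h2
    linarith
  have hposd : ∀ x ∈ Z, ∀ i ≤ k, |Real.log |((T^[i] x : ℤ) : ℝ)| - Real.log |(x : ℝ)| +
      i * Real.log 2 - od i x * Real.log 3| ≤ σ := by
    intro x hx i hi
    refine (hCr x i (hne x hx) ?_ |(x0 : ℝ)| hx0N.1 ?_).trans hx0N.2
    · intro a ha b hb hab
      exact IsCycle.injOn_iter hZ hx (lt_of_lt_of_le ha (hi.trans hkZ))
        (lt_of_lt_of_le hb (hi.trans hkZ)) hab
    · intro j _
      exact hmin _ (hZ.closed hx j)
  set Y := Z.filter fun x => G x ∧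
      (((range k).filter fun i => ¬ G (T^[i + 1] x)).card : ℝ) ≤ θ * k with hY
  have hfe := few_exits hZ G (k := k) (Nat.succ_pos _) hθ (min_le_left _ _) (min_le_right _ _)
    (by exact hout)
  set K : ℕ := ⌊(k : ℝ) * γ1 + c0⌋₊ with hK
  have hVK : ∀ m, (V δ σ k m).card ≤ K := by
    intro m
    have h1 := V_card hδ0 hσ hq hcop hα k m
    rw [hK]
    apply Nat.le_floor
    refine h1.trans (le_of_eq ?_)
    rw [← hr, hγ1, hc0]
    field_simp
  have hcard := window_card_robust hB3 hσ hy hkup hyσ' (Y := Y) (by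
      intro x hx
      rw [hY, mem_filter] at hx
      exact hx.2.1) (by
      intro x hx
      rw [hY, mem_filter] at hx
      exact hposd x hx.1) K hVK (θ * k) s hs0 hs1 (by
      intro x hx
      rw [hY, mem_filter] at hx
      exact hx.2.2)
  have h1 : (2 : ℝ) ^ K ≤ 2 ^ ((k : ℝ) * γ1 + c0) := by
    rw [← Real.rpow_natCast]
    apply Real.rpow_le_rpow_of_exponent_le (by norm_num)
    exact Nat.floor_le (by positivity)
  have h2 := hexp 1 k 0 le_rfl le_rfl (by positivity)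
  simp only [pow_one, Nat.cast_one, mul_one, Real.rpow_zero, one_pow] at h2
  have h3 : (2 : ℝ) ^ K * ((2 / s) ^ (θ * k) * (1 + s) ^ k) ≤ 2 ^ c0 * ((8 * B) ^ γ * y ^ γ) := by
    have hk1 : (1 : ℝ) ≤ 2 ^ k := one_le_pow₀ (by norm_num)
    calc (2 : ℝ) ^ K * ((2 / s) ^ (θ * k) * (1 + s) ^ k)
        ≤ 2 ^ ((k : ℝ) * γ1 + c0) * 2 ^ (ε / 2 * k) :=
          mul_le_mul h1 h2 (by positivity) (by positivity)
      _ = 2 ^ c0 * ((2 : ℝ) ^ k) ^ (γ1 + ε / 2) := by
          rw [← Real.rpow_natCast 2 k, ← Real.rpow_mul (by norm_num), ← Real.rpow_add (by norm_num),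
            ← Real.rpow_add (by norm_num)]
          congr 1
          ring
      _ ≤ 2 ^ c0 * ((2 : ℝ) ^ k) ^ γ := by
          apply mul_le_mul_of_nonneg_left _ (by positivity)
          exact Real.rpow_le_rpow_of_exponent_le hk1 hγ1le
      _ ≤ 2 ^ c0 * ((8 * B) ^ γ * y ^ γ) := by
          apply mul_le_mul_of_nonneg_left _ (by positivity)
          rw [← Real.mul_rpow (by positivity) hy0.le]
          exact Real.rpow_le_rpow (by positivity) hklow hγ0.le
  have h4 : (Y.card : ℝ) ≤ (⌊Real.log B / σ⌋₊ + 1) * (2 ^ c0 * ((8 * B) ^ γ * y ^ γ)) := by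
    refine hcard.trans ?_
    rw [mul_assoc]
    exact mul_le_mul_of_nonneg_left h3 (by positivity)
  calc (Z.card : ℝ) ≤ 2 * (Y.card : ℝ) := hfe
    _ ≤ 2 * ((⌊Real.log B / σ⌋₊ + 1) * (2 ^ c0 * ((8 * B) ^ γ * y ^ γ))) := by linarith
    _ = A1 * y ^ γ := by rw [hA1]; ring

end Pool.Agent.W5h23
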