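import Mathlib
import Pool.Agent.W5h23.Robust2

set_option autoImplicit false

/-!
Cycles of the 3x+1 map most elements of which lie in a window: corollaries.
-/

namespace Pool.Agent.W5h23

open Finset Pool.Agent.H319R2 Pool.Agent.H547R3

/-- the least absolute value of the elements of `Z` -/
noncomputable def least (Z : Finset ℤ) : ℕ := sInf {n | ∃ x ∈ Z, x.natAbs = n}

theorem least_mem {Z : Finset ℤ} (hZ : IsCycle Z) : ∃ x ∈ Z, x.natAbs = least Z := by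
  have hne : {n | ∃ x ∈ Z, x.natAbs = n}.Nonempty := by
    obtain ⟨x, hx, -⟩ := hZ.normal
    exact ⟨_, x, hx, rfl⟩
  exact Nat.sInf_mem hne

theorem cast_natAbs' (x : ℤ) : ((x.natAbs : ℕ) : ℝ) = |(x : ℝ)| := by
  rw [Nat.cast_natAbs]; push_cast; rfl

theorem least_le {Z : Finset ℤ} {x : ℤ} (hx : x ∈ Z) : (least Z : ℝ) ≤ |(x : ℝ)| := by
  rw [← cast_natAbs']
  have h : least Z ≤ x.natAbs := Nat.sInf_le ⟨x, hx, rfl⟩
  exact_mod_cast h

theorem least_bound : ∃ D : ℝ, 1 ≤ D ∧ ∀ Z : Finset ℤ, IsCycle Z →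
    (least Z : ℝ) ≤ D * (Z.card : ℝ) ^ 14 := by
  obtain ⟨D, hD1, hD⟩ := min_bound_cycle
  refine ⟨D, hD1, ?_⟩
  intro Z hZ
  obtain ⟨x, hx, -, h⟩ := hD Z hZ
  exact (least_le hx).trans h

theorem window_least (B γ : ℝ) (hB3 : 3 ≤ B) (hγt : Real.log B / Real.log 3 - 1 < γ) :
    ∃ τ C : ℝ, 0 < τ ∧ ∀ Z : Finset ℤ, IsCycle Z → ∀ y : ℝ, 1 ≤ y →
      ((Z.filter fun x : ℤ => ¬ (y ≤ |(x : ℝ)| ∧ |(x : ℝ)| ≤ B * y)).card : ℝ) ≤ τ * Z.card →
      (Z.card : ℝ) ≤ C * y ^ γ ∧ (least Z : ℝ) ≤ C * y ^ (14 * γ) := by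
  obtain ⟨τ, C, hτ, hC, h⟩ := robust_window B γ hB3 hγt
  obtain ⟨D, hD1, hD⟩ := least_bound
  refine ⟨τ, max C (D * C ^ 14), hτ, ?_⟩
  intro Z hZ y hy hout
  have hy0 : 0 < y := by linarith
  have h1 := h Z hZ y hy hout
  refine ⟨h1.trans (mul_le_mul_of_nonneg_right (le_max_left _ _) (by positivity)), ?_⟩
  have h2 : (Z.card : ℝ) ^ 14 ≤ (C * y ^ γ) ^ 14 := pow_le_pow_left₀ (by positivity) h1 14
  calc (least Z : ℝ) ≤ D * (Z.card : ℝ) ^ 14 := hD Z hZ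
    _ ≤ D * (C * y ^ γ) ^ 14 := mul_le_mul_of_nonneg_left h2 (by linarith)
    _ = D * C ^ 14 * y ^ (14 * γ) := by
        rw [mul_pow, ← Real.rpow_natCast (y ^ γ) 14, ← Real.rpow_mul hy0.le]
        push_cast
        rw [mul_comm γ 14]
        ring
    _ ≤ max C (D * C ^ 14) * y ^ (14 * γ) :=
        mul_le_mul_of_nonneg_right (le_max_right _ _) (by positivity)

theorem osc_robust (B : ℝ) (hB : B < 3 ^ (15 / 14 : ℝ)) : ∃ τ : ℝ, 0 < τ ∧
    {Z : Finset ℤ | IsCycle Z ∧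
      ((Z.filter fun x : ℤ => B * least Z < |(x : ℝ)|).card : ℝ) < τ * Z.card}.Finite := by
  classical
  have hl3 : 0 < Real.log 3 := Real.log_pos (by norm_num)
  set B' : ℝ := max B 3 with hB'
  have hB3 : 3 ≤ B' := le_max_right _ _
  have h315 : (3 : ℝ) < 3 ^ (15 / 14 : ℝ) := by
    conv_lhs => rw [← Real.rpow_one 3]
    exact Real.rpow_lt_rpow_of_exponent_lt (by norm_num) (by norm_num)
  have hB'lt : B' < 3 ^ (15 / 14 : ℝ) := max_lt hB h315
  have ht : Real.log B' / Real.log 3 - 1 < 1 / 14 := by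
    have := Real.log_lt_log (by linarith) hB'lt
    rw [Real.log_rpow (by norm_num)] at this
    rw [sub_lt_iff_lt_add, div_lt_iff₀ hl3]
    linarith
  have ht0 : 0 ≤ Real.log B' / Real.log 3 - 1 := by
    rw [sub_nonneg, one_le_div₀ hl3]
    exact Real.log_le_log (by norm_num) hB3
  obtain ⟨γ, hγ1, hγ2⟩ := exists_between ht
  have hγ0 : 0 < γ := by linarith
  obtain ⟨τ, C, hτ, h⟩ := window_least B' γ hB3 hγ1
  refine ⟨τ, hτ, ?_⟩
  set A : ℝ := max C 1 with hA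
  have hA0 : 0 < A := by have := le_max_right C 1; linarith
  have h14 : 0 < 1 - 14 * γ := by linarith
  apply ((finite_small 0).union (finite_small (A ^ (1 / (1 - 14 * γ))))).subset
  rintro Z ⟨hZ, hZτ⟩
  obtain ⟨x0, hx0, hx0l⟩ := least_mem hZ
  by_cases h0 : x0 = 0
  · left
    exact ⟨hZ, x0, hx0, by rw [h0]; simp⟩
  right
  refine ⟨hZ, x0, hx0, ?_⟩
  have hx0r : |(x0 : ℝ)| = least Z := by rw [← hx0l, cast_natAbs']
  rw [hx0r]
  have hN1 : (1 : ℝ) ≤ least Z := by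
    rw [← hx0l]
    exact_mod_cast Int.natAbs_pos.2 h0
  set N : ℝ := (least Z : ℝ) with hN
  have hN0 : 0 < N := by linarith
  obtain ⟨-, h2⟩ := h Z hZ N hN1 (by
    refine le_trans ?_ hZτ.le
    rw [Nat.cast_le]
    apply card_le_card
    intro x hx
    rw [mem_filter] at hx ⊢
    refine ⟨hx.1, ?_⟩
    by_contra hcon
    push Not at hcon
    apply hx.2
    refine ⟨least_le hx.1, hcon.trans ?_⟩
    exact mul_le_mul_of_nonneg_right (le_max_left _ _) hN0.le)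
  have h3 : N ≤ A * N ^ (14 * γ) :=
    h2.trans (mul_le_mul_of_nonneg_right (le_max_left _ _) (by positivity))
  have h5 : N ^ (1 - 14 * γ) ≤ A := by
    rw [Real.rpow_sub hN0, Real.rpow_one, div_le_iff₀ (by positivity)]
    exact h3
  have h7 := Real.rpow_le_rpow (by positivity) h5 (show 0 ≤ 1 / (1 - 14 * γ) by positivity)
  rwa [← Real.rpow_mul hN0.le, mul_one_div_cancel h14.ne', Real.rpow_one] at h7

end Pool.Agent.W5h23
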