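import Mathlib
import Pool.Agent.H547R3.Cyc
import Pool.Agent.W5h23.RatRot

set_option autoImplicit false

/-!
Benford's law for the cycles of the 3x+1 map on the integers.
-/

namespace Pool.Agent.W5h23

open Finset Pool.Agent.H319R2 Pool.Agent.H547R3

/-- the greatest common divisor of the period and the number of odd elements is small -/
theorem gcd_bound : ∃ D : ℝ, 1 ≤ D ∧ ∀ p o : ℕ, 0 < p → o ≤ p → ∀ N : ℝ, 1 ≤ N →
    |(p : ℝ) * Real.log 2 - o * Real.log 3| ≤ p / (2 * N) →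
    ((Nat.gcd o p : ℕ) : ℝ) ≤ D * p * N ^ (-(1 / 14 : ℝ)) := by
  obtain ⟨c, hc, hm⟩ := Pool.Agent.H319R2.measure
  set D0 : ℝ := max 1 (2 ^ 13 / (2 * c)) with hD0
  have hD01 : 1 ≤ D0 := le_max_left _ _
  have hD00 : 0 < D0 := by linarith
  refine ⟨D0 ^ (1 / 14 : ℝ), Real.one_le_rpow hD01 (by norm_num), ?_⟩
  intro p o hp ho N hN hΛ
  obtain ⟨g, hg⟩ : ∃ g, g = Nat.gcd o p := ⟨_, rfl⟩
  have hg0 : 0 < g := by rw [hg]; exact Nat.gcd_pos_of_pos_right _ hp
  obtain ⟨o', ho'⟩ : ∃ o', o = g * o' := by rw [hg]; exact Nat.gcd_dvd_left o p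
  obtain ⟨p', hp'⟩ : ∃ p', p = g * p' := by rw [hg]; exact Nat.gcd_dvd_right o p
  have hp'0 : 0 < p' := by
    rcases Nat.eq_zero_or_pos p' with h | h
    · rw [h, mul_zero] at hp'; omega
    · exact h
  have ho'p' : o' ≤ p' := by
    rw [ho', hp'] at ho
    exact Nat.le_of_mul_le_mul_left ho hg0
  have hgr : (0 : ℝ) < g := by exact_mod_cast hg0
  have hp'r : (0 : ℝ) < p' := by exact_mod_cast hp'0
  have hN0 : 0 < N := by linarith
  have hpr : (p : ℝ) = g * p' := by exact_mod_cast hp'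
  have hor : (o : ℝ) = g * o' := by exact_mod_cast ho'
  have h1 : |(p' : ℝ) * Real.log 2 - o' * Real.log 3| ≤ p' / (2 * N) := by
    have e : (p : ℝ) * Real.log 2 - o * Real.log 3 =
        g * ((p' : ℝ) * Real.log 2 - o' * Real.log 3) := by rw [hpr, hor]; ring
    rw [e, abs_mul, abs_of_pos hgr, hpr, mul_div_assoc] at hΛ
    exact le_of_mul_le_mul_left hΛ hgr
  have h2 := hm (p' : ℤ) (-(o' : ℤ)) (Or.inl (by exact_mod_cast hp'0.ne'))
  have h3 : ((|(p' : ℤ)| + |(-(o' : ℤ))| : ℤ) : ℝ) ≤ 2 * p' := by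
    have : |(p' : ℤ)| + |(-(o' : ℤ))| ≤ 2 * p' := by
      rw [abs_neg, abs_of_nonneg (by positivity), abs_of_nonneg (by positivity)]
      omega
    exact_mod_cast this
  have h4 : (0 : ℝ) ≤ ((|(p' : ℤ)| + |(-(o' : ℤ))| : ℤ) : ℝ) := by
    have : (0 : ℤ) ≤ |(p' : ℤ)| + |(-(o' : ℤ))| := by positivity
    exact_mod_cast this
  have h5 : ((|(p' : ℤ)| + |(-(o' : ℤ))| : ℤ) : ℝ) ^ 13 ≤ (2 * p') ^ 13 :=
    pow_le_pow_left₀ h4 h3 13
  have e : ((p' : ℤ) : ℝ) * Real.log 2 + ((-(o' : ℤ) : ℤ) : ℝ) * Real.log 3 =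
      (p' : ℝ) * Real.log 2 - o' * Real.log 3 := by push_cast; ring
  rw [e] at h2
  have h6 : c ≤ (2 * p') ^ 13 * (p' / (2 * N)) :=
    h2.trans (mul_le_mul h5 h1 (abs_nonneg _) (by positivity))
  have h7 : c * (2 * N) ≤ 2 ^ 13 * (p' : ℝ) ^ 14 := by
    have : (2 * (p' : ℝ)) ^ 13 * (p' / (2 * N)) * (2 * N) = 2 ^ 13 * (p' : ℝ) ^ 14 := by
      field_simp
    rw [← this]
    exact mul_le_mul_of_nonneg_right h6 (by positivity)
  have h8 : N ≤ D0 * (p' : ℝ) ^ 14 := by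
    have : N ≤ 2 ^ 13 / (2 * c) * (p' : ℝ) ^ 14 := by
      rw [div_mul_eq_mul_div, le_div_iff₀ (by positivity)]
      linarith
    exact this.trans (mul_le_mul_of_nonneg_right (le_max_right _ _) (by positivity))
  have h9 : N ^ (1 / 14 : ℝ) ≤ D0 ^ (1 / 14 : ℝ) * p' := by
    have h10 := Real.rpow_le_rpow hN0.le h8 (by norm_num : (0 : ℝ) ≤ 1 / 14)
    rw [Real.mul_rpow hD00.le (by positivity), ← Real.rpow_natCast (p' : ℝ) 14,
      ← Real.rpow_mul hp'r.le] at h10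
    norm_num at h10 ⊢
    exact h10
  rw [← hg, Real.rpow_neg hN0.le, ← div_eq_mul_inv, le_div_iff₀ (Real.rpow_pos_of_pos hN0 _), hpr]
  calc (g : ℝ) * N ^ (1 / 14 : ℝ) ≤ g * (D0 ^ (1 / 14 : ℝ) * p') :=
        mul_le_mul_of_nonneg_left h9 hgr.le
    _ = D0 ^ (1 / 14 : ℝ) * (g * p') := by ring

/-- the data of a cycle, ordered along the orbit -/
theorem cycle_data (η : ℝ) (hη : beta < η) (hη1 : η < 1) : ∃ C : ℝ, 0 < C ∧
    ∀ Z : Finset ℤ, IsCycle Z → ∀ N : ℝ, 1 ≤ N → (∀ x ∈ Z, N ≤ |(x : ℝ)|) →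
    ∃ x : ℤ, x ∈ Z ∧ 0 < Z.card ∧ Z = (range Z.card).image (fun i => T^[i] x) ∧
      Set.InjOn (fun i => T^[i] x) (Set.Iio Z.card) ∧ od Z.card x ≤ Z.card ∧
      odds Z = od Z.card x ∧
      |(Z.card : ℝ) * Real.log 2 - od Z.card x * Real.log 3| ≤ Z.card / (2 * N) ∧
      |(Z.card : ℝ) * Real.log 2 - od Z.card x * Real.log 3| ≤ C * N ^ (η - 1) ∧
      ∀ t < Z.card, |Real.log |((T^[t] x : ℤ) : ℝ)| - Real.log |(x : ℝ)| + t * Real.log 2 -
        od t x * Real.log 3| ≤ C * N ^ (η - 1) := by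
  classical
  obtain ⟨C, hC0, hC⟩ := rigid η hη hη1
  refine ⟨C, hC0, ?_⟩
  intro Z hZ N hN hmin
  obtain ⟨x, hxZ, hpos, hset, hcard, hodd, hinj⟩ := hZ.normal
  rw [← hcard] at hpos hset hodd hinj
  have hx0 : x ≠ 0 := by
    intro h
    have := hmin x hxZ
    rw [h] at this
    simp at this
    linarith
  have hper : T^[Z.card] x = x := by rw [hcard]; exact Function.iterate_minimalPeriod
  have hminj : ∀ j, N ≤ |((T^[j] x : ℤ) : ℝ)| := fun j => hmin _ (hZ.closed hxZ j)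
  refine ⟨x, hxZ, hpos, hset, hinj, od_le _ _, hodd, cycle_log hper hN hminj, ?_, ?_⟩
  · have h := hC x Z.card hx0 hinj N hN (fun j _ => hminj j)
    rw [hper, sub_self, zero_add] at h
    exact h
  · intro t ht
    exact hC x t hx0 (fun i hi j hj hij => hinj (lt_trans hi ht) (lt_trans hj ht) hij) N hN
      (fun j _ => hminj j)

/-- **Benford's law for cycles**, base `3` -/
theorem benford3 : ∃ C : ℝ, 0 < C ∧ ∀ Z : Finset ℤ, IsCycle Z → ∀ N : ℝ, 1 ≤ N →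
    (∀ x ∈ Z, N ≤ |(x : ℝ)|) → ∀ a b : ℝ, 0 ≤ a → a ≤ b → b ≤ 1 →
    |((Z.filter fun x : ℤ => a ≤ Int.fract (Real.logb 3 |(x : ℝ)|) ∧
        Int.fract (Real.logb 3 |(x : ℝ)|) < b).card : ℝ) - (b - a) * Z.card| ≤
      C * Z.card * N ^ (-(0.049 : ℝ)) := by
  classical
  obtain ⟨C, hC0, hC⟩ := cycle_data 0.951 beta_lt (by norm_num)
  obtain ⟨D, hD1, hD⟩ := gcd_bound
  have hl3 : 1 < Real.log 3 := by
    rw [Real.lt_log_iff_exp_lt (by norm_num)]
    exact Real.exp_one_lt_d9.trans (by norm_num)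
  have hl30 : 0 < Real.log 3 := by linarith
  refine ⟨4 * C + D, by positivity, ?_⟩
  intro Z hZ N hN hmin a b ha hab hb
  obtain ⟨x, hxZ, hpos, hset, hinj, hod, -, hΛ1, hΛ2, hlog⟩ := hC Z hZ N hN hmin
  obtain ⟨p, hp⟩ : ∃ p, p = Z.card := ⟨_, rfl⟩
  rw [← hp] at hpos hset hinj hod hΛ1 hΛ2 hlog ⊢
  have hpr : (0 : ℝ) < p := by exact_mod_cast hpos
  have hN0 : 0 < N := by linarith
  set f : ℕ → ℝ := fun t => Real.logb 3 |((T^[t] x : ℤ) : ℝ)| with hf
  set E : ℝ := C * N ^ ((0.951 : ℝ) - 1) with hE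
  have hE0 : 0 < E := by positivity
  have hdisc := count_disc (range p) (fun t => t) (fun _ _ _ _ h => h) p hpos
    (fun s hs => mem_range.1 hs) (card_range p) (-(od p x : ℤ)) (Real.log |(x : ℝ)| / Real.log 3)
    (2 * E) (by positivity) f (by
      intro t ht
      rw [mem_range] at ht
      refine ⟨(od t x : ℤ), ?_⟩
      have h1 := hlog t ht
      have e : f t - Real.log |(x : ℝ)| / Real.log 3 - (t : ℝ) * (((-(od p x : ℤ) : ℤ) : ℝ) / p) -
          ((od t x : ℤ) : ℝ) = ((Real.log |((T^[t] x : ℤ) : ℝ)| - Real.log |(x : ℝ)| +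
          t * Real.log 2 - od t x * Real.log 3) - ((t : ℝ) / p) * ((p : ℝ) * Real.log 2 -
          od p x * Real.log 3)) / Real.log 3 := by
        simp only [hf, Real.logb]
        push_cast
        field_simp
        ring
      rw [e, abs_div, abs_of_pos hl30]
      have h2 : |((t : ℝ) / p) * ((p : ℝ) * Real.log 2 - od p x * Real.log 3)| ≤ E := by
        rw [abs_mul, abs_of_nonneg (by positivity)]
        calc (t : ℝ) / p * |(p : ℝ) * Real.log 2 - od p x * Real.log 3| ≤ 1 * E := by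
              apply mul_le_mul _ hΛ2 (abs_nonneg _) (by norm_num)
              rw [div_le_one hpr]
              exact_mod_cast ht.le
          _ = E := one_mul E
      have h3 := (abs_sub _ _).trans (add_le_add h1 h2)
      refine (div_le_div_of_nonneg_right h3 hl30.le).trans ?_
      rw [div_le_iff₀ hl30]
      nlinarith) a b ha hab hb
  have hcount : (Z.filter fun x : ℤ => a ≤ Int.fract (Real.logb 3 |(x : ℝ)|) ∧
        Int.fract (Real.logb 3 |(x : ℝ)|) < b).card =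
      ((range p).filter fun s => a ≤ Int.fract (f s) ∧ Int.fract (f s) < b).card := by
    conv_lhs => rw [hset]
    rw [filter_image, card_image_of_injOn]
    intro i hi j hj hij
    simp only [coe_filter, Set.mem_ofPred_eq, mem_range] at hi hj
    exact hinj hi.1 hj.1 hij
  rw [hcount]
  refine hdisc.trans ?_
  have hg := hD p (od p x) hpos hod N hN hΛ1
  have e1 : Int.gcd (-(od p x : ℤ)) (p : ℤ) = Nat.gcd (od p x) p := by
    simp [Int.gcd]
  rw [e1]
  have h1 : N ^ (-(1 / 14 : ℝ)) ≤ N ^ (-(0.049 : ℝ)) :=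
    Real.rpow_le_rpow_of_exponent_le hN (by norm_num)
  have h2 : E = C * N ^ (-(0.049 : ℝ)) := by rw [hE]; norm_num
  calc 2 * (2 * E) * p + ((Nat.gcd (od p x) p : ℕ) : ℝ)
      ≤ 2 * (2 * E) * p + D * p * N ^ (-(1 / 14 : ℝ)) := by linarith
    _ ≤ 2 * (2 * E) * p + D * p * N ^ (-(0.049 : ℝ)) := by
        have := mul_le_mul_of_nonneg_left h1 (show 0 ≤ D * p by positivity)
        linarith
    _ = (4 * C + D) * p * N ^ (-(0.049 : ℝ)) := by rw [h2]; ring

end Pool.Agent.W5h23
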