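import Mathlib
import Pool.Agent.H547R3.Osc
import Pool.Agent.W5h23.RatRot

set_option autoImplicit false

/-!
Counting visits of an irrational rotation, with perturbation.
-/

namespace Pool.Agent.W5h23

open Finset

/-- visits of a perturbed irrational rotation to an interval mod 1 -/
theorem kron_upper (α : ℝ) (q : ℕ) (h : ℤ) (hq : 0 < q) (hcop : IsCoprime h (q : ℤ))
    (hα : |(q : ℝ) * α - h| ≤ 1 / q) (L : ℕ) (θ ε : ℝ) (hε : 0 ≤ ε) (f : ℕ → ℝ)
    (hf : ∀ s < L, ∃ n : ℤ, |f s - θ - s * α - n| ≤ ε) (a b : ℝ) (hab : a ≤ b)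
    (S' : Finset ℕ) (hS' : S' ⊆ range L) (hS2 : ∀ s ∈ S', ∃ n : ℤ, a ≤ f s - n ∧ f s - n ≤ b) :
    (S'.card : ℝ) ≤ ((L : ℝ) / q + 1) * ((b - a + 2 * ε) * q + 3) := by
  classical
  have hqr : (0 : ℝ) < q := by exact_mod_cast hq
  have hmaps : ∀ i ∈ S', i / q ∈ range (L / q + 1) := by
    intro i hi
    rw [mem_range]
    exact Nat.lt_succ_of_le (Nat.div_le_div_right (mem_range.1 (hS' hi)).le)
  have h1 := card_eq_sum_card_fiberwise hmaps
  have hgcd : Int.gcd h (q : ℤ) = 1 := Int.isCoprime_iff_gcd_eq_one.1 hcop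
  have h2 : ∀ c ∈ range (L / q + 1), ((S'.filter fun i => i / q = c).card : ℝ) ≤
      (b - a + 2 * ε) * q + 3 := by
    intro c _
    set G := (range q).filter fun j => q * c + j ∈ S' with hG
    have hle : (S'.filter fun i => i / q = c).card ≤ G.card := by
      apply card_le_card_of_injOn (fun i => i % q)
      · intro i hi
        simp only [coe_filter, Set.mem_ofPred_eq] at hi
        rw [hG]
        simp only [coe_filter, Set.mem_ofPred_eq, mem_range]
        refine ⟨Nat.mod_lt _ hq, ?_⟩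
        have e1 := Nat.div_add_mod i q
        rw [hi.2] at e1
        rw [e1]
        exact hi.1
      · intro i hi j hj hij
        simp only [coe_filter, Set.mem_ofPred_eq] at hi hj
        have e1 := Nat.div_add_mod i q
        have e2 := Nat.div_add_mod j q
        have e3 : i % q = j % q := hij
        rw [hi.2] at e1
        rw [hj.2] at e2
        omega
    have hle' : ((S'.filter fun i => i / q = c).card : ℝ) ≤ G.card := by exact_mod_cast hle
    refine hle'.trans ?_
    -- restrict to the times `j` with `q * c + j < L`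
    have hup := count_upper ((range q).filter fun j => q * c + j < L) (fun j => j)
      (fun _ _ _ _ h => h) q hq (fun s hs => mem_range.1 (mem_filter.1 hs).1) h
      (θ + (q * c : ℝ) * α) (ε + 1 / q) (by positivity) (fun j => f (q * c + j)) (by
        intro j hj
        rw [mem_filter, mem_range] at hj
        obtain ⟨n, hn⟩ := hf _ hj.2
        refine ⟨n, ?_⟩
        push_cast at hn
        have e : f (q * c + j) - (θ + (q * c : ℝ) * α) - (j : ℝ) * ((h : ℝ) / q) - n =
            (f (q * c + j) - θ - ((q : ℝ) * c + j) * α - n) +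
              ((j : ℝ) / q) * ((q : ℝ) * α - h) := by
          field_simp; ring
        rw [e]
        refine (abs_add_le _ _).trans (add_le_add hn ?_)
        rw [abs_mul, abs_of_nonneg (by positivity)]
        calc (j : ℝ) / q * |(q : ℝ) * α - h| ≤ 1 * (1 / q) := by
              apply mul_le_mul _ hα (abs_nonneg _) (by norm_num)
              rw [div_le_one hqr]
              exact_mod_cast hj.1.le
          _ = 1 / q := one_mul _) a b hab G (by
        intro j hj
        rw [hG, mem_filter] at hj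
        rw [mem_filter]
        exact ⟨hj.1, mem_range.1 (hS' hj.2)⟩) (by
        intro j hj
        rw [hG, mem_filter] at hj
        exact hS2 _ hj.2)
    refine hup.trans (le_of_eq ?_)
    rw [hgcd]
    push_cast
    field_simp
    ring
  have h3 : (S'.card : ℝ) ≤ ∑ c ∈ range (L / q + 1), ((b - a + 2 * ε) * q + 3) := by
    rw [h1]
    push_cast
    exact sum_le_sum h2
  rw [sum_const, card_range, nsmul_eq_mul] at h3
  refine h3.trans (mul_le_mul_of_nonneg_right ?_ ?_)
  · push_cast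
    have : ((L / q : ℕ) : ℝ) ≤ (L : ℝ) / q := Nat.cast_div_le
    linarith
  · have : 0 ≤ b - a + 2 * ε := by linarith
    positivity

/-- good rational approximations to `log 2 / log 3` with denominator in a given range -/
theorem approx_range : ∃ c : ℝ, 0 < c ∧ ∀ L : ℕ, 1 ≤ L → ∃ (q : ℕ) (h : ℤ), 0 < q ∧
    c * (L : ℝ) ^ (1 / 14 : ℝ) ≤ q ∧ (q : ℝ) ≤ 2 * (L : ℝ) ^ (13 / 14 : ℝ) ∧ IsCoprime h (q : ℤ) ∧
    |(q : ℝ) * (Real.log 2 / Real.log 3) - h| ≤ 1 / q := by
  obtain ⟨c, hc, hm⟩ := Pool.Agent.H319R2.measure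
  have hl2 : 0 < Real.log 2 := Real.log_pos (by norm_num)
  have hl3 : 0 < Real.log 3 := Real.log_pos (by norm_num)
  set α : ℝ := Real.log 2 / Real.log 3 with hα
  have hα0 : 0 < α := by positivity
  have hα1 : α < 1 := by
    rw [hα, div_lt_one hl3]; exact Real.log_lt_log (by norm_num) (by norm_num)
  have hl34 : Real.log 3 < 2 := by
    have h : Real.log 3 < Real.log (2 ^ 2) := Real.log_lt_log (by norm_num) (by norm_num)
    rw [Real.log_pow] at h
    have := Real.log_two_lt_d9
    push_cast at h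
    linarith
  set c1 : ℝ := c / (2 * 4 ^ 13) with hc1
  have hc10 : 0 < c1 := by positivity
  refine ⟨c1 ^ (1 / 13 : ℝ), by positivity, ?_⟩
  intro L hL
  have hLr : (1 : ℝ) ≤ L := by exact_mod_cast hL
  have hL0 : (0 : ℝ) < L := by linarith
  set X : ℝ := (L : ℝ) ^ (13 / 14 : ℝ) with hX
  have hX1 : 1 ≤ X := Real.one_le_rpow hLr (by norm_num)
  set P : ℕ := ⌈X⌉₊ with hP
  have hP1 : 0 < P := Nat.ceil_pos.2 (by linarith)
  have hPX : X ≤ P := Nat.le_ceil X
  have hPX2 : (P : ℝ) ≤ 2 * X := by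
    have := (Nat.ceil_lt_add_one (by linarith : (0 : ℝ) ≤ X)).le
    linarith
  have hP0 : (0 : ℝ) < P := by exact_mod_cast hP1
  obtain ⟨x, hx1, hx2⟩ := Real.exists_rat_abs_sub_le_and_den_le α (n := P) hP1
  set q : ℕ := x.den with hq
  set h : ℤ := x.num with hh
  have hq0 : 0 < q := x.den_pos
  have hqr : (0 : ℝ) < q := by exact_mod_cast hq0
  have hq1 : (1 : ℝ) ≤ q := by exact_mod_cast hq0
  have hqP : (q : ℝ) ≤ P := by exact_mod_cast hx2
  have hxq : (x : ℝ) = (h : ℝ) / q := by
    rw [hh, hq]; exact Rat.cast_def x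
  have happ : |(q : ℝ) * α - h| ≤ 1 / ((P : ℝ) + 1) := by
    rw [hxq] at hx1
    have e : (q : ℝ) * α - h = q * (α - h / q) := by field_simp
    rw [e, abs_mul, abs_of_pos hqr]
    calc (q : ℝ) * |α - h / q| ≤ q * (1 / (((P : ℝ) + 1) * q)) :=
          mul_le_mul_of_nonneg_left hx1 hqr.le
      _ = 1 / ((P : ℝ) + 1) := by field_simp
  have hcop : IsCoprime h (q : ℤ) := by
    rw [Int.isCoprime_iff_gcd_eq_one]
    have := x.reduced
    rw [hh, hq]
    rw [Int.gcd_eq_natAbs]
    simpa using this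
  have h1q : |(q : ℝ) * α - h| ≤ 1 / q :=
    happ.trans (one_div_le_one_div_of_le hqr (by linarith))
  refine ⟨q, h, hq0, ?_, hqP.trans hPX2, hcop, h1q⟩
  have hmq := hm (q : ℤ) (-h) (Or.inl (by exact_mod_cast hq0.ne'))
  have e2 : ((q : ℤ) : ℝ) * Real.log 2 + ((-h : ℤ) : ℝ) * Real.log 3 = Real.log 3 * (q * α - h) := by
    rw [hα]; push_cast; field_simp; ring
  rw [e2, abs_mul, abs_of_pos hl3] at hmq
  have hh4 : ((|(q : ℤ)| + |-h| : ℤ) : ℝ) ≤ 4 * q := by
    have h5 : |(h : ℝ)| ≤ 3 * q := by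
      have h6 : |(h : ℝ)| ≤ |(q : ℝ) * α| + |(q : ℝ) * α - h| := by
        have e7 : (h : ℝ) = (q : ℝ) * α - ((q : ℝ) * α - h) := by ring
        calc |(h : ℝ)| = |(q : ℝ) * α - ((q : ℝ) * α - h)| := by rw [← e7]
          _ ≤ _ := abs_sub _ _
      have h7 : |(q : ℝ) * α| ≤ q := by
        rw [abs_of_pos (by positivity)]; nlinarith
      have h8 : 1 / ((P : ℝ) + 1) ≤ 1 := by rw [div_le_one (by positivity)]; linarith
      linarith
    push_cast
    rw [abs_neg, abs_of_nonneg hqr.le]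
    linarith
  have hh0 : (0 : ℝ) ≤ ((|(q : ℤ)| + |-h| : ℤ) : ℝ) := by
    have : (0 : ℤ) ≤ |(q : ℤ)| + |-h| := by positivity
    exact_mod_cast this
  have h9 : c ≤ (4 * (q : ℝ)) ^ 13 * (2 * (1 / X)) := by
    refine hmq.trans ?_
    apply mul_le_mul (pow_le_pow_left₀ hh0 hh4 13) _ (by positivity) (by positivity)
    apply mul_le_mul hl34.le _ (abs_nonneg _) (by norm_num)
    exact happ.trans (one_div_le_one_div_of_le (by linarith) (by linarith))
  have h10 : c1 * X ≤ (q : ℝ) ^ 13 := by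
    have hX0 : 0 < X := by linarith
    have h11 : c * X ≤ 2 * 4 ^ 13 * (q : ℝ) ^ 13 := by
      calc c * X ≤ (4 * (q : ℝ)) ^ 13 * (2 * (1 / X)) * X :=
            mul_le_mul_of_nonneg_right h9 hX0.le
        _ = 2 * 4 ^ 13 * (q : ℝ) ^ 13 := by field_simp
    rw [hc1, div_mul_eq_mul_div, div_le_iff₀ (by positivity)]
    linarith
  have h12 := Real.rpow_le_rpow (by positivity) h10 (by norm_num : (0 : ℝ) ≤ 1 / 13)
  rw [Real.mul_rpow hc10.le (by positivity), ← Real.rpow_natCast (q : ℝ) 13,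
    ← Real.rpow_mul hqr.le, hX, ← Real.rpow_mul hL0.le] at h12
  norm_num at h12 ⊢
  exact h12

end Pool.Agent.W5h23
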