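import Mathlib
import Pool.Agent.W5h23.Benford
import Pool.Agent.W5h23.Kron

set_option autoImplicit false

/-!
Benford's law for stretches of the cycles of the 3x+1 map on the integers.
-/

namespace Pool.Agent.W5h23

open Finset Pool.Agent.H319R2 Pool.Agent.H547R3

/-- **discrepancy** of a perturbed irrational rotation -/
theorem kron_disc (α : ℝ) (q : ℕ) (h : ℤ) (hq : 0 < q) (hcop : IsCoprime h (q : ℤ))
    (hα : |(q : ℝ) * α - h| ≤ 1 / q) (L : ℕ) (θ ε : ℝ) (hε : 0 ≤ ε) (f : ℕ → ℝ)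
    (hf : ∀ s < L, ∃ n : ℤ, |f s - θ - s * α - n| ≤ ε) (a b : ℝ) (ha : 0 ≤ a) (hab : a ≤ b)
    (hb : b ≤ 1) :
    |(((range L).filter fun s => a ≤ Int.fract (f s) ∧ Int.fract (f s) < b).card : ℝ) -
      (b - a) * L| ≤ 2 * ε * L + 3 * L / q + (1 + 2 * ε) * q + 3 := by
  classical
  have hqr : (0 : ℝ) < q := by exact_mod_cast hq
  set F := (range L).filter fun s => a ≤ Int.fract (f s) ∧ Int.fract (f s) < b with hF
  set G := (range L).filter fun s => ¬ (a ≤ Int.fract (f s) ∧ Int.fract (f s) < b) with hG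
  have hFG : F.card + G.card = (range L).card := by
    rw [hF, hG]
    exact Finset.card_filter_add_card_filter_not _
  rw [card_range] at hFG
  have h1 := kron_upper α q h hq hcop hα L θ ε hε f hf a b hab F (filter_subset _ _) (by
    intro s hs
    rw [hF, mem_filter] at hs
    refine ⟨⌊f s⌋, ?_⟩
    have e : f s - ⌊f s⌋ = Int.fract (f s) := rfl
    rw [e]
    exact ⟨hs.2.1, hs.2.2.le⟩)
  have h2 := kron_upper α q h hq hcop hα L θ ε hε f hf b (a + 1) (by linarith) G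
    (filter_subset _ _) (by
    intro s hs
    rw [hG, mem_filter, not_and_or] at hs
    have e : f s - ⌊f s⌋ = Int.fract (f s) := rfl
    have h3 := Int.fract_nonneg (f s)
    have h4 := Int.fract_lt_one (f s)
    rcases hs.2 with h | h
    · refine ⟨⌊f s⌋ - 1, ?_⟩
      push_cast
      rw [not_le] at h
      constructor <;> linarith
    · refine ⟨⌊f s⌋, ?_⟩
      rw [not_lt] at h
      constructor <;> linarith)
  have h5 : (F.card : ℝ) + G.card = L := by exact_mod_cast hFG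
  have e1 : ((L : ℝ) / q + 1) * ((b - a + 2 * ε) * q + 3) =
      (b - a) * L + 2 * ε * L + 3 * L / q + (b - a + 2 * ε) * q + 3 := by
    field_simp; ring
  have e2 : ((L : ℝ) / q + 1) * ((a + 1 - b + 2 * ε) * q + 3) =
      L - (b - a) * L + 2 * ε * L + 3 * L / q + (a + 1 - b + 2 * ε) * q + 3 := by
    field_simp; ring
  rw [e1] at h1
  rw [e2] at h2
  have h6 : (b - a + 2 * ε) * q ≤ (1 + 2 * ε) * q :=
    mul_le_mul_of_nonneg_right (by linarith) hqr.le
  have h7 : (a + 1 - b + 2 * ε) * q ≤ (1 + 2 * ε) * q :=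
    mul_le_mul_of_nonneg_right (by linarith) hqr.le
  rw [abs_le]
  constructor <;> linarith

/-- **Benford's law for stretches of cycles**, base `3` -/
theorem benford3_stretch : ∃ C : ℝ, 0 < C ∧ ∀ Z : Finset ℤ, IsCycle Z → ∀ N : ℝ, 1 ≤ N →
    (∀ x ∈ Z, N ≤ |(x : ℝ)|) → ∀ x ∈ Z, ∀ L : ℕ, L ≤ Z.card →
    ∀ a b : ℝ, 0 ≤ a → a ≤ b → b ≤ 1 →
    |(((range L).filter fun i => a ≤ Int.fract (Real.logb 3 |((T^[i] x : ℤ) : ℝ)|) ∧
        Int.fract (Real.logb 3 |((T^[i] x : ℤ) : ℝ)|) < b).card : ℝ) - (b - a) * L| ≤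
      C * (L : ℝ) ^ (13 / 14 : ℝ) + C * L * N ^ (-(0.049 : ℝ)) := by
  classical
  obtain ⟨C, hC0, hC⟩ := rigid 0.951 beta_lt (by norm_num)
  obtain ⟨c, hc0, hc⟩ := approx_range
  have hl3 : 1 < Real.log 3 := by
    rw [Real.lt_log_iff_exp_lt (by norm_num)]
    exact Real.exp_one_lt_d9.trans (by norm_num)
  have hl30 : 0 < Real.log 3 := by linarith
  refine ⟨3 / c + 2 * (1 + 2 * C) + 3 + 2 * C, by positivity, ?_⟩
  intro Z hZ N hN hmin x hxZ L hL a b ha hab hb
  rcases Nat.eq_zero_or_pos L with hL0 | hL0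
  · subst hL0
    simp
  have hLr : (1 : ℝ) ≤ L := by exact_mod_cast hL0
  have hLpos : (0 : ℝ) < L := by linarith
  have hN0 : 0 < N := by linarith
  -- injectivity
  have hinj : Set.InjOn (fun i => T^[i] x) (Set.Iio Z.card) := by
    obtain ⟨x0, hx0Z, hpos, hset, hcard, hodd, hinj0⟩ := hZ.normal
    obtain ⟨j, hj⟩ := hZ.back hx0Z hxZ
    have hm : Function.minimalPeriod T x = Z.card := by
      rw [← hj, Function.minimalPeriod_apply_iterate (hZ.periodic hx0Z) j, hcard]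
    rw [← hm]
    exact Function.iterate_injOn_Iio_minimalPeriod
  have hx0 : x ≠ 0 := by
    intro h
    have := hmin x hxZ
    rw [h] at this
    simp at this
    linarith
  have hminj : ∀ j, N ≤ |((T^[j] x : ℤ) : ℝ)| := fun j => hmin _ (hZ.closed hxZ j)
  set E : ℝ := C * N ^ ((0.951 : ℝ) - 1) with hE
  have hE0 : 0 < E := by positivity
  have h2 : E = C * N ^ (-(0.049 : ℝ)) := by rw [hE]; norm_num
  have hE1 : E ≤ C := by
    rw [h2]
    have : N ^ (-(0.049 : ℝ)) ≤ 1 := Real.rpow_le_one_of_one_le_of_nonpos hN (by norm_num)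
    nlinarith
  have hlog : ∀ t < L, |Real.log |((T^[t] x : ℤ) : ℝ)| - Real.log |(x : ℝ)| + t * Real.log 2 -
        od t x * Real.log 3| ≤ E := by
    intro t ht
    exact hC x t hx0 (fun i hi j hj hij => hinj (lt_of_lt_of_le (lt_trans hi ht) hL)
      (lt_of_lt_of_le (lt_trans hj ht) hL) hij) N hN (fun j _ => hminj j)
  obtain ⟨q, h, hq, hq1, hq2, hcop, hα⟩ := hc L hL0
  have hqr : (0 : ℝ) < q := by exact_mod_cast hq
  have hdisc := kron_disc (-(Real.log 2 / Real.log 3)) q (-h) hq hcop.neg_left (by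
      have e : (q : ℝ) * (-(Real.log 2 / Real.log 3)) - ((-h : ℤ) : ℝ) =
        -((q : ℝ) * (Real.log 2 / Real.log 3) - h) := by push_cast; ring
      rw [e, abs_neg]
      exact hα) L (Real.log |(x : ℝ)| / Real.log 3) E hE0.le
    (fun i => Real.logb 3 |((T^[i] x : ℤ) : ℝ)|) (by
      intro t ht
      refine ⟨(od t x : ℤ), ?_⟩
      have h1 := hlog t ht
      have e : Real.logb 3 |((T^[t] x : ℤ) : ℝ)| - Real.log |(x : ℝ)| / Real.log 3 -
          (t : ℝ) * (-(Real.log 2 / Real.log 3)) - ((od t x : ℤ) : ℝ) =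
          (Real.log |((T^[t] x : ℤ) : ℝ)| - Real.log |(x : ℝ)| + t * Real.log 2 -
          od t x * Real.log 3) / Real.log 3 := by
        simp only [Real.logb]
        push_cast
        field_simp
        ring
      rw [e, abs_div, abs_of_pos hl30, div_le_iff₀ hl30]
      nlinarith) a b ha hab hb
  refine hdisc.trans ?_
  set Y : ℝ := (L : ℝ) ^ (13 / 14 : ℝ) with hY
  have hY0 : 0 < Y := by positivity
  have hY1 : 1 ≤ Y := Real.one_le_rpow hLr (by norm_num)
  have h3 : 3 * (L : ℝ) / q ≤ 3 / c * Y := by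
    rw [div_le_iff₀ hqr]
    have e : (L : ℝ) = (L : ℝ) ^ (1 / 14 : ℝ) * Y := by
      rw [hY, ← Real.rpow_add hLpos]; norm_num
    calc 3 * (L : ℝ) = 3 / c * Y * (c * (L : ℝ) ^ (1 / 14 : ℝ)) := by
          rw [e]; field_simp
          rw [← e]
      _ ≤ 3 / c * Y * q := mul_le_mul_of_nonneg_left hq1 (by positivity)
  have h4 : (1 + 2 * E) * q ≤ 2 * (1 + 2 * C) * Y := by
    calc (1 + 2 * E) * q ≤ (1 + 2 * C) * (2 * Y) :=
          mul_le_mul (by linarith) hq2 hqr.le (by positivity)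
      _ = 2 * (1 + 2 * C) * Y := by ring
  have h5 : 0 < N ^ (-(0.049 : ℝ)) := by positivity
  have h6 : 2 * E * L ≤ (3 / c + 2 * (1 + 2 * C) + 3 + 2 * C) * L * N ^ (-(0.049 : ℝ)) := by
    rw [h2]
    have : 0 ≤ (3 / c + 2 * (1 + 2 * C) + 3) * (L * N ^ (-(0.049 : ℝ))) := by positivity
    nlinarith
  nlinarith [mul_pos hC0 hY0]

end Pool.Agent.W5h23
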